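import Pool.Agent.H68.MS.Cnt

/-!
# Few reduced magic squares of squares
-/

set_option autoImplicit false

namespace Pool.H68.MS

/-- the square with the entries `c.1 + i c.2.1 + j c.2.2`, `i, j = 0, 1, 2` -/
def Mag (N : ℕ) : Set (ℤ × ℤ × ℤ) :=
  {c | c.2.1 ≠ 0 ∧ c.2.2 ≠ 0 ∧ Int.gcd c.1 (Int.gcd c.2.1 c.2.2) = 1 ∧
    ∀ i j : Fin 3, IsSquare (c.1 + (i : ℕ) * c.2.1 + (j : ℕ) * c.2.2) ∧
      c.1 + (i : ℕ) * c.2.1 + (j : ℕ) * c.2.2 ≤ N}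

/-- the centre of a magic square -/
theorem mag_centre {N : ℕ} {c : ℤ × ℤ × ℤ} (hc : c ∈ Mag N) :
    ∃ m : ℕ, 0 < m ∧ m ≤ Nat.sqrt N ∧ Ctr m ∧ c.1 = (m : ℤ) ^ 2 - c.2.1 - c.2.2 ∧
      (∃ β : GaussianInt, β.norm = (m : ℤ) ^ 2 ∧ (β ^ 2).im = c.2.1) ∧
      ∃ β : GaussianInt, β.norm = (m : ℤ) ^ 2 ∧ (β ^ 2).im = c.2.2 := by
  obtain ⟨a0, a, b⟩ := c
  obtain ⟨ha, hb, hg, hall⟩ := hc
  simp only at ha hb hg hall
  obtain ⟨⟨m0, hm0⟩, hmN⟩ := hall 1 1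
  have hm1 : a0 + a + b = (m0.natAbs : ℤ) ^ 2 := by
    rw [Int.natAbs_sq]
    have : a0 + ((1 : Fin 3) : ℕ) * a + ((1 : Fin 3) : ℕ) * b = a0 + a + b := by
      norm_num
    rw [this] at hm0
    rw [hm0]
    ring
  set m : ℕ := m0.natAbs with hm
  have hN : (m : ℤ) ^ 2 ≤ N := by
    rw [← hm1]
    have : a0 + ((1 : Fin 3) : ℕ) * a + ((1 : Fin 3) : ℕ) * b = a0 + a + b := by
      norm_num
    rwa [this] at hmN
  have e0 : a0 = (m : ℤ) ^ 2 - a - b := by linarith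
  have sq : ∀ (i j : Fin 3) (D : ℤ), a0 + ((i : ℕ) : ℤ) * a + ((j : ℕ) : ℤ) * b = D →
      IsSquare D := fun i j D h => h ▸ (hall i j).1
  have s21 : IsSquare ((m : ℤ) ^ 2 + a) := sq 2 1 _ (by simp [e0]; ring)
  have s01 : IsSquare ((m : ℤ) ^ 2 - a) := sq 0 1 _ (by simp [e0])
  have s12 : IsSquare ((m : ℤ) ^ 2 + b) := sq 1 2 _ (by simp [e0]; ring)
  have s10 : IsSquare ((m : ℤ) ^ 2 - b) := sq 1 0 _ (by simp [e0]; ring)
  have s22 : IsSquare ((m : ℤ) ^ 2 + (a + b)) := sq 2 2 _ (by simp [e0]; ring)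
  have s00 : IsSquare ((m : ℤ) ^ 2 - (a + b)) := sq 0 0 _ (by simp [e0]; ring)
  have s20 : IsSquare ((m : ℤ) ^ 2 + (a - b)) := sq 2 0 _ (by simp [e0]; ring)
  have s02 : IsSquare ((m : ℤ) ^ 2 - (a - b)) := sq 0 2 _ (by simp [e0]; ring)
  have hm0' : 0 < m := by
    rcases Nat.eq_zero_or_pos m with h | h
    · exfalso
      rw [h] at s21 s01
      push_cast at s21 s01
      have h1 := s21.nonneg
      have h2 := s01.nonneg
      apply ha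
      linarith
    · exact h
  have hpr : ∀ p : ℕ, p.Prime → p ∣ m → ¬ ((p : ℤ) ^ 2 ∣ a ∧ (p : ℤ) ^ 2 ∣ b) := by
    rintro p hp hpm ⟨h1, h2⟩
    have h3 : (p : ℤ) ∣ a := (dvd_pow_self _ two_ne_zero).trans h1
    have h4 : (p : ℤ) ∣ b := (dvd_pow_self _ two_ne_zero).trans h2
    have h5 : (p : ℤ) ∣ a0 := by
      rw [e0]
      exact dvd_sub (dvd_sub (dvd_pow (Int.natCast_dvd_natCast.2 hpm) two_ne_zero) h3) h4
    have h6 : (p : ℤ) ∣ (Int.gcd a0 (Int.gcd a b) : ℤ) := Int.dvd_coe_gcd h5 (Int.dvd_coe_gcd h3 h4)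
    rw [hg] at h6
    have h7 : p ∣ 1 := by exact_mod_cast h6
    exact hp.one_lt.ne' (Nat.dvd_one.1 h7)
  refine ⟨m, hm0', ?_, ?_, e0, gauss s21 s01, gauss s12 s10⟩
  · rw [Nat.le_sqrt']
    exact_mod_cast hN
  · by_cases hab : a + b = 0
    · refine ⟨a, -b, ha, by simpa using hb, ?_, ?_, ?_⟩
      · intro h
        apply ha
        linarith
      · intro D hD
        rcases hD with rfl | rfl | rfl
        · exact ⟨s21, s01⟩
        · refine ⟨?_, ?_⟩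
          · rw [← sub_eq_add_neg]
            exact s10
          · rw [sub_neg_eq_add]
            exact s12
        · rw [← sub_eq_add_neg]
          exact ⟨s20, s02⟩
      · rintro p hp hpm ⟨h1, h2⟩
        exact hpr p hp hpm ⟨h1, (dvd_neg.1 h2)⟩
    · refine ⟨a, b, ha, hb, hab, ?_, hpr⟩
      intro D hD
      rcases hD with rfl | rfl | rfl
      · exact ⟨s21, s01⟩
      · exact ⟨s12, s10⟩
      · exact ⟨s22, s00⟩

theorem mag_card (N B : ℕ)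
    (hB : ∀ Q, 0 < Q → Q ≤ Nat.sqrt N → 4 * (Q ^ 2).divisors.card ^ 4 ≤ B) :
    (Mag N).Finite ∧ (Mag N).ncard ≤ 100 * (Qs (Nat.sqrt N)).card * B ^ 5 := by
  classical
  obtain ⟨W, hW1, hW2⟩ := centres (Nat.sqrt N) B hB
  have hS : ∀ m : ℕ, ∃ A : Finset ℤ, (0 < m → m ≤ Nat.sqrt N → A.card ≤ B) ∧
      (0 < m → ∀ β : GaussianInt, β.norm = (m : ℤ) ^ 2 → (β ^ 2).im ∈ A) := by
    intro m
    by_cases h : 0 < m
    · obtain ⟨S, h1, h2⟩ := div_set (m ^ 2) (by positivity)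
      refine ⟨S.image fun β => (β ^ 2).im, fun _ hm => ?_, fun _ β hβ => ?_⟩
      · exact Finset.card_image_le.trans (h1.trans (hB m h hm))
      · apply Finset.mem_image_of_mem
        apply h2
        rw [hβ]
        push_cast
        rfl
    · exact ⟨∅, fun h' => absurd h' h, fun h' => absurd h' h⟩
  choose A hA1 hA2 using hS
  set F : Finset (ℤ × ℤ × ℤ) := (W.filter fun m => 0 < m ∧ m ≤ Nat.sqrt N).biUnion fun m =>
    (A m ×ˢ A m).image fun x => ((m : ℤ) ^ 2 - x.1 - x.2, x.1, x.2) with hF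
  have hsub : Mag N ⊆ F := by
    rintro c hc
    obtain ⟨m, h1, h2, h3, h4, ⟨β, h5, h6⟩, β', h7, h8⟩ := mag_centre hc
    rw [hF, Finset.coe_biUnion, Set.mem_iUnion₂]
    refine ⟨m, ?_, ?_⟩
    · rw [Finset.mem_coe, Finset.mem_filter]
      exact ⟨hW2 m h1 h2 h3, h1, h2⟩
    · rw [Finset.mem_coe, Finset.mem_image]
      refine ⟨(c.2.1, c.2.2), Finset.mem_product.2 ⟨?_, ?_⟩, ?_⟩
      · have := hA2 m h1 β h5
        rwa [h6] at this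
      · have := hA2 m h1 β' h7
        rwa [h8] at this
      · simp only
        rw [← h4]
  refine ⟨F.finite_toSet.subset hsub, ?_⟩
  have h1 := Set.ncard_le_ncard hsub F.finite_toSet
  rw [Set.ncard_coe_finset] at h1
  refine h1.trans ?_
  have h2 : F.card ≤ (W.filter fun m => 0 < m ∧ m ≤ Nat.sqrt N).card * B ^ 2 := by
    rw [hF]
    apply Finset.card_biUnion_le_card_mul
    intro m hm
    have hm' := (Finset.mem_filter.1 hm).2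
    refine Finset.card_image_le.trans ?_
    rw [Finset.card_product, pow_two]
    exact Nat.mul_le_mul (hA1 m hm'.1 hm'.2) (hA1 m hm'.1 hm'.2)
  refine h2.trans ?_
  calc (W.filter fun m => 0 < m ∧ m ≤ Nat.sqrt N).card * B ^ 2 ≤
      (100 * (Qs (Nat.sqrt N)).card * B ^ 3) * B ^ 2 :=
        Nat.mul_le_mul_right _ ((Finset.card_filter_le _ _).trans hW1)
    _ = 100 * (Qs (Nat.sqrt N)).card * B ^ 5 := by ring

theorem Qs_card (M : ℕ) : ((Qs M).card : ℝ) ≤ (M : ℝ) ^ (9 / 10 : ℝ) := by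
  have hsub : Qs M ⊆ Finset.Icc 1 ⌊(M : ℝ) ^ (9 / 10 : ℝ)⌋₊ := by
    intro Q hQ
    unfold Qs at hQ
    rw [Finset.mem_filter, Finset.mem_Icc] at hQ
    rw [Finset.mem_Icc]
    refine ⟨hQ.1.1, ?_⟩
    apply Nat.le_floor
    have h1 : (Q : ℝ) ^ (10 : ℕ) ≤ (M : ℝ) ^ (9 : ℕ) := by exact_mod_cast hQ.2
    have h2 : (Q : ℝ) = ((Q : ℝ) ^ (10 : ℕ)) ^ (1 / 10 : ℝ) := by
      rw [← Real.rpow_natCast, ← Real.rpow_mul (by positivity)]
      norm_num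
    have h3 : (M : ℝ) ^ (9 / 10 : ℝ) = ((M : ℝ) ^ (9 : ℕ)) ^ (1 / 10 : ℝ) := by
      rw [← Real.rpow_natCast, ← Real.rpow_mul (by positivity)]
      norm_num
    rw [h2, h3]
    exact Real.rpow_le_rpow (by positivity) h1 (by norm_num)
  have h1 := Finset.card_le_card hsub
  rw [Nat.card_Icc, Nat.add_sub_cancel] at h1
  have h2 : ((Qs M).card : ℝ) ≤ (⌊(M : ℝ) ^ (9 / 10 : ℝ)⌋₊ : ℝ) := by exact_mod_cast h1
  exact h2.trans (Nat.floor_le (by positivity))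

/-- the bound for the number of cofactors -/
theorem exists_B (ε : ℝ) (hε : 0 < ε) : ∃ C : ℝ, 0 < C ∧ ∀ M : ℕ, 1 ≤ M → ∃ B : ℕ,
    (∀ Q, 0 < Q → Q ≤ M → 4 * (Q ^ 2).divisors.card ^ 4 ≤ B) ∧ (B : ℝ) ≤ C * (M : ℝ) ^ ε := by
  obtain ⟨C, hC, hdiv⟩ := Pool.Agent.H5.W.divisor_bound (ε / 8) (by positivity)
  refine ⟨4 * C ^ 4, by positivity, fun M hM => ⟨⌊4 * C ^ 4 * (M : ℝ) ^ ε⌋₊, ?_,
    Nat.floor_le (by positivity)⟩⟩
  intro Q hQ hQM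
  apply Nat.le_floor
  have hM0 : (0 : ℝ) < M := by exact_mod_cast hM
  have hQ0 : (0 : ℝ) < Q := by exact_mod_cast hQ
  have h1 := hdiv (Q ^ 2) (by exact Nat.one_le_pow _ _ hQ)
  have h2 : (((Q ^ 2 : ℕ) : ℝ)) ^ (ε / 8) ≤ (M : ℝ) ^ (ε / 4) := by
    push_cast
    rw [← Real.rpow_natCast, ← Real.rpow_mul hQ0.le]
    have : ((2 : ℕ) : ℝ) * (ε / 8) = ε / 4 := by push_cast; ring
    rw [this]
    exact Real.rpow_le_rpow hQ0.le (by exact_mod_cast hQM) (by positivity)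
  have h3 : ((Q ^ 2).divisors.card : ℝ) ≤ C * (M : ℝ) ^ (ε / 4) :=
    h1.trans (mul_le_mul_of_nonneg_left h2 hC.le)
  have h4 : (((Q ^ 2).divisors.card : ℝ)) ^ 4 ≤ (C * (M : ℝ) ^ (ε / 4)) ^ 4 :=
    pow_le_pow_left₀ (by positivity) h3 4
  have h5 : (C * (M : ℝ) ^ (ε / 4)) ^ 4 = C ^ 4 * (M : ℝ) ^ ε := by
    rw [mul_pow, ← Real.rpow_natCast ((M : ℝ) ^ (ε / 4)), ← Real.rpow_mul hM0.le]
    congr 2
    push_cast
    ring
  rw [h5] at h4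
  push_cast
  linarith

theorem main (ε : ℝ) (hε : 0 < ε) : ∃ C : ℝ,
    (∀ N : ℕ, 1 ≤ N → (Mag N).Finite ∧ ((Mag N).ncard : ℝ) ≤ C * (N : ℝ) ^ (9 / 20 + ε)) ∧
    ∀ M : ℕ, 1 ≤ M → (({m : ℕ | 1 ≤ m ∧ m ≤ M ∧ Ctr m} : Set ℕ).ncard : ℝ) ≤
      C * (M : ℝ) ^ (9 / 10 + ε) := by
  obtain ⟨C, hC, hB⟩ := exists_B (ε / 5) (by positivity)
  refine ⟨100 * C ^ 5 + 100 * C ^ 3, fun N hN => ?_, fun M hM => ?_⟩
  · have hs : 1 ≤ Nat.sqrt N := Nat.sqrt_pos.2 hN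
    obtain ⟨B, hB1, hB2⟩ := hB (Nat.sqrt N) hs
    obtain ⟨hfin, hcard⟩ := mag_card N B hB1
    refine ⟨hfin, ?_⟩
    have hN0 : (1 : ℝ) ≤ N := by exact_mod_cast hN
    have hs0 : (0 : ℝ) < Nat.sqrt N := by exact_mod_cast hs
    have h1 : ((Mag N).ncard : ℝ) ≤ 100 * ((Qs (Nat.sqrt N)).card : ℝ) * (B : ℝ) ^ 5 := by
      exact_mod_cast hcard
    have h2 := Qs_card (Nat.sqrt N)
    have h3 : ((Nat.sqrt N : ℕ) : ℝ) ≤ (N : ℝ) ^ (1 / 2 : ℝ) := by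
      rw [← Real.sqrt_eq_rpow]
      exact Real.nat_sqrt_le_real_sqrt
    have h4 : (B : ℝ) ^ 5 ≤ C ^ 5 * ((Nat.sqrt N : ℕ) : ℝ) ^ ε := by
      refine (pow_le_pow_left₀ (by positivity) hB2 5).trans (le_of_eq ?_)
      rw [mul_pow, ← Real.rpow_natCast (((Nat.sqrt N : ℕ) : ℝ) ^ (ε / 5)),
        ← Real.rpow_mul hs0.le]
      congr 2
      push_cast
      ring
    have h5 : ((Nat.sqrt N : ℕ) : ℝ) ^ (9 / 10 : ℝ) * ((Nat.sqrt N : ℕ) : ℝ) ^ ε ≤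
        (N : ℝ) ^ (9 / 20 + ε) := by
      rw [← Real.rpow_add hs0]
      refine (Real.rpow_le_rpow hs0.le h3 (by positivity)).trans ?_
      rw [← Real.rpow_mul (by positivity)]
      apply Real.rpow_le_rpow_of_exponent_le hN0
      linarith
    calc ((Mag N).ncard : ℝ) ≤ 100 * ((Qs (Nat.sqrt N)).card : ℝ) * (B : ℝ) ^ 5 := h1
      _ ≤ 100 * ((Nat.sqrt N : ℕ) : ℝ) ^ (9 / 10 : ℝ) *
          (C ^ 5 * ((Nat.sqrt N : ℕ) : ℝ) ^ ε) := by gcongr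
      _ = 100 * C ^ 5 * (((Nat.sqrt N : ℕ) : ℝ) ^ (9 / 10 : ℝ) *
          ((Nat.sqrt N : ℕ) : ℝ) ^ ε) := by ring
      _ ≤ 100 * C ^ 5 * (N : ℝ) ^ (9 / 20 + ε) :=
          mul_le_mul_of_nonneg_left h5 (by positivity)
      _ ≤ (100 * C ^ 5 + 100 * C ^ 3) * (N : ℝ) ^ (9 / 20 + ε) := by
          apply mul_le_mul_of_nonneg_right _ (by positivity)
          have : 0 ≤ 100 * C ^ 3 := by positivity
          linarith
  · obtain ⟨B, hB1, hB2⟩ := hB M hM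
    obtain ⟨W, hW1, hW2⟩ := centres M B hB1
    have hM0 : (1 : ℝ) ≤ M := by exact_mod_cast hM
    have hsub : ({m : ℕ | 1 ≤ m ∧ m ≤ M ∧ Ctr m} : Set ℕ) ⊆ W := by
      rintro m ⟨h1, h2, h3⟩
      exact Finset.mem_coe.2 (hW2 m h1 h2 h3)
    have h0 := Set.ncard_le_ncard hsub W.finite_toSet
    rw [Set.ncard_coe_finset] at h0
    have h1 : (({m : ℕ | 1 ≤ m ∧ m ≤ M ∧ Ctr m} : Set ℕ).ncard : ℝ) ≤
        100 * ((Qs M).card : ℝ) * (B : ℝ) ^ 3 := by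
      exact_mod_cast h0.trans hW1
    have h2 := Qs_card M
    have h4 : (B : ℝ) ^ 3 ≤ C ^ 3 * (M : ℝ) ^ ε := by
      refine (pow_le_pow_left₀ (by positivity) hB2 3).trans ?_
      rw [mul_pow, ← Real.rpow_natCast ((M : ℝ) ^ (ε / 5)), ← Real.rpow_mul (by positivity)]
      apply mul_le_mul_of_nonneg_left _ (by positivity)
      apply Real.rpow_le_rpow_of_exponent_le hM0
      push_cast
      linarith
    calc (({m : ℕ | 1 ≤ m ∧ m ≤ M ∧ Ctr m} : Set ℕ).ncard : ℝ) ≤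
        100 * ((Qs M).card : ℝ) * (B : ℝ) ^ 3 := h1
      _ ≤ 100 * (M : ℝ) ^ (9 / 10 : ℝ) * (C ^ 3 * (M : ℝ) ^ ε) := by gcongr
      _ = 100 * C ^ 3 * (M : ℝ) ^ (9 / 10 + ε) := by
          rw [Real.rpow_add (by positivity)]
          ring
      _ ≤ (100 * C ^ 5 + 100 * C ^ 3) * (M : ℝ) ^ (9 / 10 + ε) := by
          apply mul_le_mul_of_nonneg_right _ (by positivity)
          have : 0 ≤ 100 * C ^ 5 := by positivity
          linarith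

end Pool.H68.MS
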