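import Pool.Agent.H68.MS.Lat
import Pool.Agent.H68.MS.Main

/-!
# The number of the cofactors

Proof. `S n` = the Gaussian integers of norm `n` (`div_set`, at most `B` for `n ≤ M`; `exists_B` of
`Main` for a small exponent; note `(n ^ 2).divisors.card ≥ n.divisors.card`).
`Qset` = union over `t < Nat.log 2 M + 1`, `n1, n2, k ∈ Icc 1 M`, `g ∈ S n1`, `y ∈ S n2`, `p ∈ AB y` with
`n1 * n2 * k ≤ R` and `2 ^ t * n2 * k ≤ R * n1` of the image of `x ↦ n1 * n2 * x.norm * k` on the set of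
`lat4 g n1 p.1 p.2 (2 ^ t)`. By `lat4` that set has at most
`5 B ^ 4 (4 * 2 ^ t + n1 ^ 2) / n1 ^ 2 ≤ 25 B ^ 4 R / (n1 n2 k)` elements, because
`4 * 2 ^ t * n2 * k + n1 ^ 2 * n2 * k ≤ 5 R n1`. Sum: `Σ 1 / (n1 n2 k) ≤ (1 + log M) ^ 3`
(`harmonic_le_one_add_log`), the number of `t` is `≤ 2 (1 + log M)`, `log M ≤ C M ^ ε'`.
Given data: take `t = Nat.log 2 n3`, so `2 ^ t ≤ n3 < 2 * 2 ^ t`, `n3 ≤ M`.
-/

set_option autoImplicit false

namespace Pool.H68.MS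

open Finset

private theorem lat_fun : ∃ L : GaussianInt → ℕ → GaussianInt → GaussianInt → ℕ → Finset GaussianInt,
    (∀ g n a b X, (L g n a b X).card * n ^ 2 ≤
      5 * (4 * (n ^ 2).divisors.card ^ 4) ^ 4 * (4 * X + n ^ 2)) ∧
    ∀ (g : GaussianInt) (n : ℕ) (a b : GaussianInt) (X : ℕ), IsCoprime g (star g) → g.norm = n →
      IsCoprime a (star g) → IsCoprime b (star g) → 0 < X →
      ∀ x : GaussianInt, IsCoprime x.re x.im → IsCoprime x (star g) → IsCoprime (star x) (star g) →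
        (X : ℤ) ≤ x.norm → x.norm < 2 * X → (star g) ^ 2 ∣ a * x ^ 4 - b * (star x) ^ 4 →
        x ∈ L g n a b X := by
  have h : ∀ (g : GaussianInt) (n : ℕ) (a b : GaussianInt) (X : ℕ), ∃ S : Finset GaussianInt,
      S.card * n ^ 2 ≤ 5 * (4 * (n ^ 2).divisors.card ^ 4) ^ 4 * (4 * X + n ^ 2) ∧
      (IsCoprime g (star g) → g.norm = n → IsCoprime a (star g) → IsCoprime b (star g) → 0 < X →
      ∀ x : GaussianInt, IsCoprime x.re x.im → IsCoprime x (star g) → IsCoprime (star x) (star g) →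
        (X : ℤ) ≤ x.norm → x.norm < 2 * X → (star g) ^ 2 ∣ a * x ^ 4 - b * (star x) ^ 4 →
        x ∈ S) := by
    intro g n a b X
    by_cases hc : IsCoprime g (star g) ∧ g.norm = n ∧ IsCoprime a (star g) ∧ IsCoprime b (star g) ∧ 0 < X
    · obtain ⟨h1, h2, h3, h4, h5⟩ := hc
      obtain ⟨S, hS, hx⟩ := lat4 g h1 n h2 a b h3 h4 X h5
      exact ⟨S, hS, fun _ _ _ _ _ => hx⟩
    · exact ⟨∅, by simp, fun h1 h2 h3 h4 h5 => absurd ⟨h1, h2, h3, h4, h5⟩ hc⟩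
  choose L h1 h2 using h
  exact ⟨L, h1, h2⟩

private theorem cell (M R B : ℕ) (hB : ∀ Q, 0 < Q → Q ≤ M → 4 * (Q ^ 2).divisors.card ^ 4 ≤ B)
    (t n1 n2 k c : ℕ) (h1 : 0 < n1) (h1M : n1 ≤ M) (h2 : 0 < n2) (hk : 0 < k)
    (ha : n1 * n2 * k ≤ R) (hb : 2 ^ t * n2 * k ≤ R * n1)
    (hc : c * n1 ^ 2 ≤ 5 * (4 * (n1 ^ 2).divisors.card ^ 4) ^ 4 * (4 * 2 ^ t + n1 ^ 2)) :
    (c : ℝ) ≤ 25 * B ^ 4 * R * ((n1 : ℝ)⁻¹ * (n2 : ℝ)⁻¹ * (k : ℝ)⁻¹) := by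
  have h3 : c * n1 ^ 2 ≤ 5 * B ^ 4 * (4 * 2 ^ t + n1 ^ 2) := by
    refine hc.trans ?_
    gcongr
    exact hB n1 h1 h1M
  have h4 : n1 * (c * (n1 * n2 * k)) ≤ n1 * (25 * B ^ 4 * R) := by
    calc n1 * (c * (n1 * n2 * k)) = c * n1 ^ 2 * (n2 * k) := by ring
      _ ≤ 5 * B ^ 4 * (4 * 2 ^ t + n1 ^ 2) * (n2 * k) := Nat.mul_le_mul_right _ h3
      _ = 5 * B ^ 4 * (4 * (2 ^ t * n2 * k) + n1 * (n1 * n2 * k)) := by ring
      _ ≤ 5 * B ^ 4 * (4 * (R * n1) + n1 * R) := by gcongr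
      _ = n1 * (25 * B ^ 4 * R) := by ring
  have h5 : c * (n1 * n2 * k) ≤ 25 * B ^ 4 * R := Nat.le_of_mul_le_mul_left h4 h1
  have h6 : (c : ℝ) * ((n1 : ℝ) * n2 * k) ≤ 25 * B ^ 4 * R := by exact_mod_cast h5
  have h1' : (0 : ℝ) < n1 := by exact_mod_cast h1
  have h2' : (0 : ℝ) < n2 := by exact_mod_cast h2
  have hk' : (0 : ℝ) < k := by exact_mod_cast hk
  have h7 : (n1 : ℝ)⁻¹ * (n2 : ℝ)⁻¹ * (k : ℝ)⁻¹ = ((n1 : ℝ) * n2 * k)⁻¹ := by
    rw [mul_inv, mul_inv]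
  rw [h7, ← div_eq_mul_inv, le_div_iff₀ (by positivity)]
  exact h6

private theorem sum_four (A J : Finset ℕ) (D : ℝ) (f : ℕ → ℝ) :
    ∑ i ∈ A ×ˢ (J ×ˢ (J ×ˢ J)), D * (f i.2.1 * f i.2.2.1 * f i.2.2.2) =
      A.card * (D * (∑ j ∈ J, f j) ^ 3) := by
  rw [sum_product]
  simp only
  rw [sum_const, nsmul_eq_mul, ← mul_sum]
  congr 2
  rw [sum_product]
  simp only
  have h1 : (∑ j ∈ J, f j) ^ 3 = (∑ j ∈ J, f j) * ((∑ j ∈ J, f j) * ∑ j ∈ J, f j) := by ring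
  rw [h1, sum_mul]
  refine sum_congr rfl fun a _ => ?_
  rw [sum_product]
  simp only
  rw [sum_mul_sum, mul_sum]
  refine sum_congr rfl fun b _ => ?_
  rw [mul_sum]
  refine sum_congr rfl fun c _ => ?_
  ring

private theorem sum_inv (M : ℕ) : ∑ j ∈ Icc 1 M, ((j : ℕ) : ℝ)⁻¹ ≤ 1 + Real.log M := by
  have h := harmonic_le_one_add_log M
  rw [harmonic_eq_sum_Icc] at h
  push_cast at h
  exact h

private theorem log_two_le (M : ℕ) (hM : 1 ≤ M) : ((Nat.log 2 M + 1 : ℕ) : ℝ) ≤ 2 * (1 + Real.log M) := by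
  have h1 : 2 ^ Nat.log 2 M ≤ M := Nat.pow_log_le_self 2 (by omega)
  have h2 : ((2 : ℝ) ^ Nat.log 2 M) ≤ M := by exact_mod_cast h1
  have h3 := Real.log_le_log (by positivity) h2
  rw [Real.log_pow] at h3
  have h4 := Real.log_two_gt_d9
  have h5 : (0 : ℝ) ≤ (Nat.log 2 M : ℝ) := by positivity
  push_cast
  nlinarith

theorem sumQ (ε : ℝ) (hε : 0 < ε) : ∃ C : ℝ, 0 < C ∧ ∀ M R : ℕ, 1 ≤ M → 1 ≤ R →
    ∀ AB : GaussianInt → Finset (GaussianInt × GaussianInt), (∀ y, (AB y).card ≤ 4) →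
    ∃ Qset : Finset ℕ, (Qset.card : ℝ) ≤ C * R * (M : ℝ) ^ ε ∧
      ∀ (g x y : GaussianInt) (n1 n2 n3 k : ℕ) (p : GaussianInt × GaussianInt), p ∈ AB y →
        g.norm = n1 → y.norm = n2 → x.norm = n3 → 0 < n1 → 0 < n2 → 0 < n3 → 0 < k →
        IsCoprime g (star g) → IsCoprime p.1 (star g) → IsCoprime p.2 (star g) →
        IsCoprime x.re x.im → IsCoprime x (star g) → IsCoprime (star x) (star g) →
        (star g) ^ 2 ∣ p.1 * x ^ 4 - p.2 * (star x) ^ 4 →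
        n3 * n2 * k ≤ R * n1 → n1 * n2 * k ≤ R → n1 * n2 * n3 * k ≤ M →
        n1 * n2 * n3 * k ∈ Qset := by
  classical
  obtain ⟨C0, hC0, hB⟩ := exists_B (ε / 10) (by positivity)
  obtain ⟨L, hL1, hL2⟩ := lat_fun
  have hS : ∀ n : ℕ, ∃ S : Finset GaussianInt, (0 < n → S.card ≤ 4 * n.divisors.card ^ 4) ∧
      (0 < n → ∀ β : GaussianInt, β.norm = n → β ∈ S) := by
    intro n
    by_cases h : 0 < n
    · obtain ⟨S, h1, h2⟩ := div_set n h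
      exact ⟨S, fun _ => h1, fun _ => h2⟩
    · exact ⟨∅, fun h' => absurd h' h, fun h' => absurd h' h⟩
  choose S hS1 hS2 using hS
  refine ⟨200 * C0 ^ 6 * (1 + 10 / ε) ^ 4, by positivity, fun M R hM hR AB hAB => ?_⟩
  obtain ⟨B, hB1, hB2⟩ := hB M hM
  have hSB : ∀ n : ℕ, 0 < n → n ≤ M → (S n).card ≤ B := by
    intro n hn hnM
    refine (hS1 n hn).trans (le_trans ?_ (hB1 n hn hnM))
    have h1 : n.divisors.card ≤ (n ^ 2).divisors.card :=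
      card_le_card (Nat.divisors_subset_of_dvd (by positivity) (dvd_pow_self n two_ne_zero))
    gcongr
  set I : Finset (ℕ × ℕ × ℕ × ℕ) :=
    (range (Nat.log 2 M + 1) ×ˢ (Icc 1 M ×ˢ (Icc 1 M ×ˢ Icc 1 M))).filter fun i =>
      i.2.1 * i.2.2.1 * i.2.2.2 ≤ R ∧ 2 ^ i.1 * i.2.2.1 * i.2.2.2 ≤ R * i.2.1 with hI
  set F : ℕ × ℕ × ℕ × ℕ → Finset ℕ := fun i => (S i.2.1).biUnion fun g => (S i.2.2.1).biUnion fun y =>
    (AB y).biUnion fun p => (L g i.2.1 p.1 p.2 (2 ^ i.1)).image fun x =>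
      i.2.1 * i.2.2.1 * x.norm.toNat * i.2.2.2 with hF
  refine ⟨I.biUnion F, ?_, ?_⟩
  · -- the number of elements
    have hcell : ∀ i ∈ I, ((F i).card : ℝ) ≤
        100 * B ^ 6 * R * ((i.2.1 : ℝ)⁻¹ * (i.2.2.1 : ℝ)⁻¹ * (i.2.2.2 : ℝ)⁻¹) := by
      rintro ⟨t, n1, n2, k⟩ hi
      rw [hI, mem_filter, mem_product, mem_product, mem_product, mem_Icc, mem_Icc, mem_Icc] at hi
      obtain ⟨⟨_, ⟨h1, h1M⟩, ⟨h2, h2M⟩, ⟨hk, _⟩⟩, ha, hb⟩ := hi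
      simp only at h1 h1M h2 h2M hk ha hb ⊢
      set X : ℝ := 25 * B ^ 4 * R * ((n1 : ℝ)⁻¹ * (n2 : ℝ)⁻¹ * (k : ℝ)⁻¹) with hX
      have hX0 : 0 ≤ X := by positivity
      have hL : ∀ g p, (L g n1 (Prod.fst p) (Prod.snd p) (2 ^ t)).card ≤ ⌊X⌋₊ := by
        intro g p
        apply Nat.le_floor
        exact cell M R B hB1 t n1 n2 k _ h1 h1M h2 hk ha hb (hL1 g n1 p.1 p.2 (2 ^ t))
      have hc : (F (t, n1, n2, k)).card ≤ B * (B * (4 * ⌊X⌋₊)) := by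
        rw [hF]
        simp only
        refine (card_biUnion_le_card_mul _ _ (B * (4 * ⌊X⌋₊)) ?_).trans
          (Nat.mul_le_mul_right _ (hSB n1 h1 h1M))
        intro g _
        refine (card_biUnion_le_card_mul _ _ (4 * ⌊X⌋₊) ?_).trans
          (Nat.mul_le_mul_right _ (hSB n2 h2 h2M))
        intro y _
        refine (card_biUnion_le_card_mul _ _ ⌊X⌋₊ ?_).trans (Nat.mul_le_mul_right _ (hAB y))
        intro p _
        exact card_image_le.trans (hL g p)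
      have hc' : ((F (t, n1, n2, k)).card : ℝ) ≤ B * (B * (4 * (⌊X⌋₊ : ℝ))) := by exact_mod_cast hc
      refine hc'.trans ?_
      have h5 : (B : ℝ) * (B * (4 * (⌊X⌋₊ : ℝ))) ≤ B * (B * (4 * X)) := by
        gcongr
        exact Nat.floor_le hX0
      refine h5.trans (le_of_eq ?_)
      rw [hX]
      ring
    have h1 : ((I.biUnion F).card : ℝ) ≤ ∑ i ∈ I, ((F i).card : ℝ) := by exact_mod_cast card_biUnion_le
    have h2 : ∑ i ∈ I, ((F i).card : ℝ) ≤ ∑ i ∈ range (Nat.log 2 M + 1) ×ˢ (Icc 1 M ×ˢ (Icc 1 M ×ˢ Icc 1 M)),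
        100 * B ^ 6 * R * ((i.2.1 : ℝ)⁻¹ * (i.2.2.1 : ℝ)⁻¹ * (i.2.2.2 : ℝ)⁻¹) := by
      refine (sum_le_sum hcell).trans ?_
      refine sum_le_sum_of_subset_of_nonneg (filter_subset _ _) fun i _ _ => by positivity
    have h3 := sum_four (range (Nat.log 2 M + 1)) (Icc 1 M) (100 * B ^ 6 * R) (fun j => ((j : ℕ) : ℝ)⁻¹)
    rw [card_range] at h3
    have hM0 : (1 : ℝ) ≤ M := by exact_mod_cast hM
    have hlog : 0 ≤ Real.log M := Real.log_nonneg hM0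
    have hsum0 : 0 ≤ ∑ j ∈ Icc 1 M, ((j : ℕ) : ℝ)⁻¹ := sum_nonneg fun _ _ => by positivity
    have hl : 1 + Real.log M ≤ (1 + 10 / ε) * (M : ℝ) ^ (ε / 10) := by
      have h4 := Real.log_le_rpow_div (by positivity : (0 : ℝ) ≤ M) (by positivity : 0 < ε / 10)
      have h5 : (1 : ℝ) ≤ (M : ℝ) ^ (ε / 10) := Real.one_le_rpow hM0 (by positivity)
      have h6 : (M : ℝ) ^ (ε / 10) / (ε / 10) = 10 / ε * (M : ℝ) ^ (ε / 10) := by
        field_simp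
      rw [h6] at h4
      linarith
    have hpow : ((M : ℝ) ^ (ε / 10)) ^ 10 = (M : ℝ) ^ ε := by
      rw [← Real.rpow_natCast, ← Real.rpow_mul (by positivity)]
      congr 1
      push_cast
      ring
    calc ((I.biUnion F).card : ℝ) ≤ _ := h1.trans h2
      _ = ((Nat.log 2 M + 1 : ℕ) : ℝ) * (100 * B ^ 6 * R * (∑ j ∈ Icc 1 M, ((j : ℕ) : ℝ)⁻¹) ^ 3) := h3
      _ ≤ (2 * (1 + Real.log M)) * (100 * B ^ 6 * R * (1 + Real.log M) ^ 3) := by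
        gcongr
        · exact log_two_le M hM
        · exact sum_inv M
      _ = 200 * B ^ 6 * R * (1 + Real.log M) ^ 4 := by ring
      _ ≤ 200 * (C0 * (M : ℝ) ^ (ε / 10)) ^ 6 * R * ((1 + 10 / ε) * (M : ℝ) ^ (ε / 10)) ^ 4 := by
        gcongr
      _ = 200 * C0 ^ 6 * (1 + 10 / ε) ^ 4 * R * ((M : ℝ) ^ (ε / 10)) ^ 10 := by ring
      _ = 200 * C0 ^ 6 * (1 + 10 / ε) ^ 4 * R * (M : ℝ) ^ ε := by rw [hpow]
  · -- the data
    intro g x y n1 n2 n3 k p hp hg hy hx h1 h2 h3 hk c1 c2 c3 c4 c5 c6 hdvd e1 e2 e3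
    have hpos : 0 < n1 * n2 * n3 * k := by positivity
    have l1 : n1 ≤ M := (Nat.le_of_dvd hpos ⟨n2 * n3 * k, by ring⟩).trans e3
    have l2 : n2 ≤ M := (Nat.le_of_dvd hpos ⟨n1 * n3 * k, by ring⟩).trans e3
    have l3 : n3 ≤ M := (Nat.le_of_dvd hpos ⟨n1 * n2 * k, by ring⟩).trans e3
    have l4 : k ≤ M := (Nat.le_of_dvd hpos ⟨n1 * n2 * n3, by ring⟩).trans e3
    have hp1 : 2 ^ Nat.log 2 n3 ≤ n3 := Nat.pow_log_le_self 2 (by omega)
    have hp2 : n3 < 2 ^ (Nat.log 2 n3 + 1) := Nat.lt_pow_succ_log_self (by norm_num) n3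
    rw [mem_biUnion]
    refine ⟨(Nat.log 2 n3, n1, n2, k), ?_, ?_⟩
    · rw [hI, mem_filter, mem_product, mem_product, mem_product, mem_Icc, mem_Icc, mem_Icc, mem_range]
      refine ⟨⟨?_, ⟨h1, l1⟩, ⟨h2, l2⟩, ⟨hk, l4⟩⟩, e2, ?_⟩
      · have h : Nat.log 2 n3 ≤ Nat.log 2 M := Nat.log_mono_right l3
        exact Nat.lt_succ_of_le h
      · refine le_trans ?_ e1
        show 2 ^ Nat.log 2 n3 * n2 * k ≤ n3 * n2 * k
        gcongr
    · rw [hF]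
      simp only [mem_biUnion, mem_image]
      refine ⟨g, hS2 n1 h1 g hg, y, hS2 n2 h2 y hy, p, hp, x, ?_, ?_⟩
      · refine hL2 g n1 p.1 p.2 _ c1 hg c2 c3 (by positivity) x c4 c5 c6 ?_ ?_ hdvd
        · rw [hx]
          exact_mod_cast hp1
        · rw [hx]
          rw [pow_succ] at hp2
          push_cast
          have : ((n3 : ℕ) : ℤ) < 2 ^ Nat.log 2 n3 * 2 := by exact_mod_cast hp2
          linarith
      · rw [hx, Int.toNat_natCast]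

end Pool.H68.MS
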