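import Pool.Agent.H68.MS.Sel
import Pool.Agent.H68.MS.SumQ

/-!
# The exponents three eighths and three quarters
-/

set_option autoImplicit false

namespace Pool.H68.MS

/-- the data of a centre, with an admissible cofactor -/
theorem centre3 {m M R : ℕ} (hm : 0 < m) (hmM : m ≤ M) (hR : M ^ 3 ≤ R ^ 4) (h : Ctr m) :
    ∃ (i : Fin 10) (γ : GaussianInt) (δ : Fin 3 → GaussianInt) (Q : ℕ), 0 < Q ∧
      (m : ℤ) = γ.norm * Q ∧ (∀ j, (δ j).norm = (Q : ℤ) ^ 2) ∧ Adm M R Q ∧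
      IsCoprime γ.re γ.im ∧ (bet i δ γ 0 ^ 2).im + (bet i δ γ 1 ^ 2).im = (bet i δ γ 2 ^ 2).im ∧
      ∀ j, (bet i δ γ j ^ 2).im ≠ 0 := by
  obtain ⟨a, b, ha, hb, hab, hsq, hp⟩ := h
  obtain ⟨β0, h01, h02⟩ := gauss (hsq a (by simp)).1 (hsq a (by simp)).2
  obtain ⟨β1, h11, h12⟩ := gauss (hsq b (by simp)).1 (hsq b (by simp)).2
  obtain ⟨β2, h21, h22⟩ := gauss (hsq (a + b) (by simp)).1 (hsq (a + b) (by simp)).2
  let β : Fin 3 → GaussianInt := ![β0, β1, β2]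
  have hN : ∀ j, (β j).norm = (m : ℤ) ^ 2 := by
    intro j
    fin_cases j
    · exact h01
    · exact h11
    · exact h21
  have key : ∀ p : ℕ, p.Prime → ∀ i j : Fin 3, i ≠ j → (p : GaussianInt) ∣ β i →
      (p : GaussianInt) ∣ β j → False := by
    intro p hpp i j hij hi hj
    refine hp p hpp (dvd_of_norm hpp hi (hN i)) ?_
    have hi' := sq_dvd_im hi
    have hj' := sq_dvd_im hj
    have e0 : (β 0 ^ 2).im = a := h02
    have e1 : (β 1 ^ 2).im = b := h12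
    have e2 : (β 2 ^ 2).im = a + b := h22
    have f1 : (p : ℤ) ^ 2 ∣ a → (p : ℤ) ^ 2 ∣ a + b → (p : ℤ) ^ 2 ∣ b := fun x y => by
      have := dvd_sub y x
      simpa using this
    have f2 : (p : ℤ) ^ 2 ∣ b → (p : ℤ) ^ 2 ∣ a + b → (p : ℤ) ^ 2 ∣ a := fun x y => by
      have := dvd_sub y x
      simpa using this
    fin_cases i <;> fin_cases j <;>
      simp only [Fin.zero_eta, Fin.mk_one, Fin.reduceFinMk, e0, e1, e2] at hi' hj' <;>
      first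
        | exact absurd rfl hij
        | exact ⟨hi', hj'⟩
        | exact ⟨hj', hi'⟩
        | exact ⟨hi', f1 hi' hj'⟩
        | exact ⟨hj', f1 hj' hi'⟩
        | exact ⟨f2 hi' hj', hi'⟩
        | exact ⟨f2 hj' hi', hj'⟩
  have hC : Cop β := fun p hpp i j hij h => key p hpp i j hij h.1 h.2
  have hrel : (β 0 ^ 2).im + (β 1 ^ 2).im = (β 2 ^ 2).im :=
    (congrArg₂ (· + ·) h02 h12).trans h22.symm
  have hne : ∀ j, (β j ^ 2).im ≠ 0 := by
    intro j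
    fin_cases j
    · exact fun h => ha (h02.symm.trans h)
    · exact fun h => hb (h12.symm.trans h)
    · exact fun h => hab (h22.symm.trans h)
  obtain ⟨γ, u, hu, hγ, hmm⟩ := refine3 m hm β hN hC
  have hprim : ∀ i, IsCoprime (γ i).re (γ i).im := by
    intro i
    rw [Int.isCoprime_iff_gcd_eq_one]
    by_contra hg
    obtain ⟨p, hpp, hpd⟩ := Nat.exists_prime_and_dvd hg
    have h1 : (p : ℤ) ∣ (γ i).re := (Int.natCast_dvd_natCast.2 hpd).trans (Int.gcd_dvd_left ..)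
    have h2 : (p : ℤ) ∣ (γ i).im := (Int.natCast_dvd_natCast.2 hpd).trans (Int.gcd_dvd_right ..)
    have h3 := nat_dvd_of h1 h2
    have h4 : (p : GaussianInt) ∣ star (γ i) := by
      apply nat_dvd_star
      rwa [star_star]
    have h5 : ∀ j, (p : GaussianInt) ∣ β j := by
      intro j
      rw [hγ j]
      apply Dvd.dvd.mul_left
      refine Dvd.dvd.trans ?_ (Finset.dvd_prod_of_mem
        (fun i => (γ i) ^ (pat i j) * (star (γ i)) ^ (2 - pat i j)) (Finset.mem_univ i))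
      rcases Nat.eq_zero_or_pos (pat i j) with h6 | h6
      · simp only [h6]
        exact (dvd_pow h4 (by norm_num)).mul_left _
      · exact (dvd_pow h3 h6.ne').mul_right _
    exact key p hpp 0 1 (by decide) (h5 0) (h5 1)
  have hnn : ∀ i, 0 ≤ (γ i).norm := fun i => Zsqrtd.norm_nonneg (by norm_num) _
  have hm0 : (m : ℤ) ≠ 0 := by exact_mod_cast hm.ne'
  have hpos : ∀ i, 0 < (γ i).norm := by
    intro i
    refine lt_of_le_of_ne (hnn i) fun h => hm0 ?_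
    rw [hmm]
    exact Finset.prod_eq_zero (Finset.mem_univ i) h.symm
  have hnat : ∀ i, ∃ n : ℕ, (γ i).norm = n ∧ 0 < n := by
    intro i
    refine ⟨(γ i).norm.toNat, (Int.toNat_of_nonneg (hnn i)).symm, ?_⟩
    have := hpos i
    omega
  choose n hn hn0 using hnat
  have hmn : m = ∏ i, n i := by
    have h1 : (m : ℤ) = ((∏ i, n i : ℕ) : ℤ) := by
      rw [hmm]
      push_cast
      exact Finset.prod_congr rfl fun i _ => hn i
    exact_mod_cast h1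
  obtain ⟨s, hs⟩ := select hn0 hmn
  -- the cell which is solved
  have fin : ∀ i : Fin 10, (∀ Q : ℕ, m = n i * Q → Adm M R Q) →
      ∃ (i : Fin 10) (γ : GaussianInt) (δ : Fin 3 → GaussianInt) (Q : ℕ), 0 < Q ∧
      (m : ℤ) = γ.norm * Q ∧ (∀ j, (δ j).norm = (Q : ℤ) ^ 2) ∧ Adm M R Q ∧
      IsCoprime γ.re γ.im ∧ (bet i δ γ 0 ^ 2).im + (bet i δ γ 1 ^ 2).im = (bet i δ γ 2 ^ 2).im ∧
      ∀ j, (bet i δ γ j ^ 2).im ≠ 0 := by
    intro i hi
    obtain ⟨δ, Q, hQ0, hmQ, hδ, hβ⟩ := cell_split hm hN hγ hmm i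
    refine ⟨i, γ i, δ, Q, hQ0, hmQ, hδ, hi Q ?_, hprim i, ?_, fun j => ?_⟩
    · rw [hn i] at hmQ
      exact_mod_cast hmQ
    · rw [← hβ 0, ← hβ 1, ← hβ 2]
      exact hrel
    · rw [← hβ j]
      exact hne j
  have hm1 : m ^ 3 ≤ R ^ 4 := (Nat.pow_le_pow_left hmM 3).trans hR
  by_cases hbig : m < n (Bc s) ^ 2
  · apply fin (Bc s)
    intro Q hQ
    left
    have h1 : n (Bc s) ^ 4 * Q ^ 4 ≤ n (Bc s) ^ 4 * R ^ 4 := by
      calc n (Bc s) ^ 4 * Q ^ 4 = m * m ^ 3 := by rw [hQ]; ring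
        _ ≤ n (Bc s) ^ 4 * R ^ 4 := by
            refine Nat.mul_le_mul ?_ hm1
            have := hn0 (Bc s)
            calc m ≤ n (Bc s) ^ 2 := hbig.le
              _ ≤ n (Bc s) ^ 4 := Nat.pow_le_pow_right this (by norm_num)
    have h2 : Q ^ 4 ≤ R ^ 4 :=
      Nat.le_of_mul_le_mul_left h1 (pow_pos (hn0 (Bc s)) 4)
    exact (Nat.pow_le_pow_iff_left (by norm_num)).1 h2
  · push Not at hbig
    obtain ⟨w, f, ε, hε, hg, hw, hf, hN5, hd⟩ := cell_data hC hrel hu hγ hmm s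
    obtain ⟨W, hW⟩ : ∃ W : ℕ, w.norm = W := ⟨w.norm.toNat,
      (Int.toNat_of_nonneg (Zsqrtd.norm_nonneg (by norm_num) _)).symm⟩
    obtain ⟨F, hF⟩ : ∃ F : ℕ, f.norm = F := ⟨f.norm.toNat,
      (Int.toNat_of_nonneg (Zsqrtd.norm_nonneg (by norm_num) _)).symm⟩
    rw [hn, hn, hn, hW, hF] at hN5
    have hN6 : m = n (Bc s) * n (A1 s) * n (A2 s) * (W * F) := by exact_mod_cast hN5
    have hWF0 : 0 < W * F := by
      rcases Nat.eq_zero_or_pos (W * F) with h | h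
      · rw [h, Nat.mul_zero] at hN6
        omega
      · exact h
    have hW0 : 0 < W := Nat.pos_of_ne_zero fun h => by rw [h, Nat.zero_mul] at hWF0; omega
    have hF0 : 0 < F := Nat.pos_of_ne_zero fun h => by rw [h, Nat.mul_zero] at hWF0; omega
    rcases le_total (n (A2 s)) (n (A1 s)) with hle | hle
    · apply fin (A1 s)
      intro Q hQ
      rw [max_eq_left hle] at hs
      exact adm_of hε hg hw hf hd (hn _) hW hF (hn0 _) (hn0 _) (hn0 _) hW0 hF0 hle hN6 hs hbig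
        hmM hR hQ
    · apply fin (A2 s)
      intro Q hQ
      rw [max_eq_right hle] at hs
      refine adm_of hε hg hw hf hd (hn _) hW hF (hn0 _) (hn0 _) (hn0 _) hW0 hF0 hle ?_ hs hbig
        hmM hR hQ
      rw [hN6]
      ring

theorem centres3 (M R B : ℕ) (hR : M ^ 3 ≤ R ^ 4)
    (hB : ∀ Q, 0 < Q → Q ≤ M → 4 * (Q ^ 2).divisors.card ^ 4 ≤ B)
    (Qset : Finset ℕ) (hQ : ∀ Q, 0 < Q → Q ≤ M → Adm M R Q → Q ∈ Qset) :
    ∃ W : Finset ℕ, W.card ≤ 100 * Qset.card * B ^ 3 ∧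
      ∀ m, 0 < m → m ≤ M → Ctr m → m ∈ W := by
  classical
  have hS : ∀ Q : ℕ, ∃ S : Finset GaussianInt, (0 < Q → S.card ≤ 4 * (Q ^ 2).divisors.card ^ 4) ∧
      (0 < Q → ∀ β : GaussianInt, β.norm = ((Q ^ 2 : ℕ) : ℤ) → β ∈ S) := by
    intro Q
    by_cases h : 0 < Q
    · obtain ⟨S, h1, h2⟩ := div_set (Q ^ 2) (by positivity)
      exact ⟨S, fun _ => h1, fun _ => h2⟩
    · exact ⟨∅, fun h' => absurd h' h, fun h' => absurd h' h⟩
  choose S hS1 hS2 using hS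
  have hF : ∀ (i : Fin 10) (Q : ℕ) (δ : Fin 3 → GaussianInt), ∃ F : Finset GaussianInt,
      F.card ≤ 10 ∧ (0 < Q → (∀ j, (δ j).norm = (Q : ℤ) ^ 2) → ∀ γ : GaussianInt,
        IsCoprime γ.re γ.im →
        (bet i δ γ 0 ^ 2).im + (bet i δ γ 1 ^ 2).im = (bet i δ γ 2 ^ 2).im →
        (∀ j, (bet i δ γ j ^ 2).im ≠ 0) → γ ∈ F) := by
    intro i Q δ
    by_cases h : 0 < Q ∧ ∀ j, (δ j).norm = (Q : ℤ) ^ 2
    · obtain ⟨F, h1, h2⟩ := few_cells i δ Q h.1 h.2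
      exact ⟨F, h1, fun _ _ => h2⟩
    · exact ⟨∅, by simp, fun h1 h2 => absurd ⟨h1, h2⟩ h⟩
  choose F hF1 hF2 using hF
  refine ⟨(Finset.univ ×ˢ (Qset.filter fun Q => 0 < Q ∧ Q ≤ M)).biUnion fun x : Fin 10 × ℕ =>
    (Fintype.piFinset fun _ : Fin 3 => S x.2).biUnion fun δ =>
      (F x.1 x.2 δ).image fun γ => γ.norm.toNat * x.2, ?_, ?_⟩
  · have h1 : ∀ x ∈ (Finset.univ ×ˢ (Qset.filter fun Q => 0 < Q ∧ Q ≤ M) : Finset (Fin 10 × ℕ)),
        ((Fintype.piFinset fun _ : Fin 3 => S x.2).biUnion fun δ =>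
          (F x.1 x.2 δ).image fun γ => γ.norm.toNat * x.2).card ≤ B ^ 3 * 10 := by
      intro x hx
      have hx2 := (Finset.mem_product.1 hx).2
      rw [Finset.mem_filter] at hx2
      have h2 : ((Fintype.piFinset fun _ : Fin 3 => S x.2)).card ≤ B ^ 3 := by
        rw [Fintype.card_piFinset, Finset.prod_const, Finset.card_univ, Fintype.card_fin]
        exact Nat.pow_le_pow_left ((hS1 x.2 hx2.2.1).trans (hB x.2 hx2.2.1 hx2.2.2)) 3
      refine (Finset.card_biUnion_le_card_mul _ _ 10 fun δ _ => ?_).trans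
        (Nat.mul_le_mul_right 10 h2)
      exact Finset.card_image_le.trans (hF1 _ _ _)
    refine (Finset.card_biUnion_le_card_mul _ _ _ h1).trans ?_
    rw [Finset.card_product, Finset.card_univ, Fintype.card_fin]
    have h3 : (Qset.filter fun Q => 0 < Q ∧ Q ≤ M).card ≤ Qset.card := Finset.card_filter_le _ _
    calc 10 * (Qset.filter fun Q => 0 < Q ∧ Q ≤ M).card * (B ^ 3 * 10) ≤
        10 * Qset.card * (B ^ 3 * 10) :=
          Nat.mul_le_mul_right _ (Nat.mul_le_mul_left _ h3)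
      _ = 100 * Qset.card * B ^ 3 := by ring
  · intro m hm hmM hc
    obtain ⟨i, γ, δ, Q, hQ0, hmQ, hδ, hQm, hco, hrel, hne⟩ := centre3 hm hmM hR hc
    rw [Finset.mem_biUnion]
    have h1 : 0 ≤ γ.norm := Zsqrtd.norm_nonneg (by norm_num) _
    have h2 : γ.norm.toNat * Q = m := by
      have h3 : ((γ.norm.toNat * Q : ℕ) : ℤ) = m := by
        push_cast
        rw [Int.toNat_of_nonneg h1, hmQ]
      exact_mod_cast h3
    have hγ0 : 0 < γ.norm.toNat := by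
      rcases Nat.eq_zero_or_pos γ.norm.toNat with h | h
      · rw [h, Nat.zero_mul] at h2
        omega
      · exact h
    have hQM : Q ≤ M := by
      refine le_trans ?_ hmM
      rw [← h2]
      exact Nat.le_mul_of_pos_left _ hγ0
    refine ⟨(i, Q), Finset.mem_product.2 ⟨Finset.mem_univ _, ?_⟩, ?_⟩
    · rw [Finset.mem_filter]
      exact ⟨hQ Q hQ0 hQM hQm, hQ0, hQM⟩
    · rw [Finset.mem_biUnion]
      refine ⟨δ, ?_, ?_⟩
      · rw [Fintype.mem_piFinset]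
        intro j
        apply hS2 Q hQ0
        rw [hδ j]
        push_cast
        rfl
      · rw [Finset.mem_image]
        exact ⟨γ, hF2 i Q δ hQ0 hδ γ hco hrel hne, h2⟩

theorem mag_card3 (N R B : ℕ) (hR : (Nat.sqrt N) ^ 3 ≤ R ^ 4)
    (hB : ∀ Q, 0 < Q → Q ≤ Nat.sqrt N → 4 * (Q ^ 2).divisors.card ^ 4 ≤ B)
    (Qset : Finset ℕ)
    (hQ : ∀ Q, 0 < Q → Q ≤ Nat.sqrt N → Adm (Nat.sqrt N) R Q → Q ∈ Qset) :
    (Mag N).Finite ∧ (Mag N).ncard ≤ 100 * Qset.card * B ^ 5 := by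
  classical
  obtain ⟨W, hW1, hW2⟩ := centres3 (Nat.sqrt N) R B hR hB Qset hQ
  have hS : ∀ m : ℕ, ∃ A : Finset ℤ, (0 < m → m ≤ Nat.sqrt N → A.card ≤ B) ∧
      (0 < m → ∀ β : GaussianInt, β.norm = (m : ℤ) ^ 2 → (β ^ 2).im ∈ A) := by
    intro m
    by_cases h : 0 < m
    · obtain ⟨S, h1, h2⟩ := div_set (m ^ 2) (by positivity)
      refine ⟨S.image fun β => (β ^ 2).im, fun _ hm => ?_, fun _ β hβ => ?_⟩
      · exact Finset.card_image_le.trans (h1.trans (hB m h hm))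
      · apply Finset.mem_image_of_mem
        apply h2
        rw [hβ]
        push_cast
        rfl
    · exact ⟨∅, fun h' => absurd h' h, fun h' => absurd h' h⟩
  choose A hA1 hA2 using hS
  set F : Finset (ℤ × ℤ × ℤ) := (W.filter fun m => 0 < m ∧ m ≤ Nat.sqrt N).biUnion fun m =>
    (A m ×ˢ A m).image fun x => ((m : ℤ) ^ 2 - x.1 - x.2, x.1, x.2) with hF
  have hsub : Mag N ⊆ F := by
    rintro c hc
    obtain ⟨m, h1, h2, h3, h4, ⟨β, h5, h6⟩, β', h7, h8⟩ := mag_centre hc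
    rw [hF, Finset.coe_biUnion, Set.mem_iUnion₂]
    refine ⟨m, ?_, ?_⟩
    · rw [Finset.mem_coe, Finset.mem_filter]
      exact ⟨hW2 m h1 h2 h3, h1, h2⟩
    · rw [Finset.mem_coe, Finset.mem_image]
      refine ⟨(c.2.1, c.2.2), Finset.mem_product.2 ⟨?_, ?_⟩, ?_⟩
      · have := hA2 m h1 β h5
        rwa [h6] at this
      · have := hA2 m h1 β' h7
        rwa [h8] at this
      · simp only
        rw [← h4]
  refine ⟨F.finite_toSet.subset hsub, ?_⟩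
  have h1 := Set.ncard_le_ncard hsub F.finite_toSet
  rw [Set.ncard_coe_finset] at h1
  refine h1.trans ?_
  have h2 : F.card ≤ (W.filter fun m => 0 < m ∧ m ≤ Nat.sqrt N).card * B ^ 2 := by
    rw [hF]
    apply Finset.card_biUnion_le_card_mul
    intro m hm
    have hm' := (Finset.mem_filter.1 hm).2
    refine Finset.card_image_le.trans ?_
    rw [Finset.card_product, pow_two]
    exact Nat.mul_le_mul (hA1 m hm'.1 hm'.2) (hA1 m hm'.1 hm'.2)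
  refine h2.trans ?_
  calc (W.filter fun m => 0 < m ∧ m ≤ Nat.sqrt N).card * B ^ 2 ≤
      (100 * Qset.card * B ^ 3) * B ^ 2 :=
        Nat.mul_le_mul_right _ ((Finset.card_filter_le _ _).trans hW1)
    _ = 100 * Qset.card * B ^ 5 := by ring

/-- the set of the admissible cofactors -/
theorem adm_set (ε : ℝ) (hε : 0 < ε) : ∃ C : ℝ, 0 < C ∧ ∀ M : ℕ, 1 ≤ M → ∃ (R : ℕ)
    (Qset : Finset ℕ), M ^ 3 ≤ R ^ 4 ∧ (∀ Q, 0 < Q → Q ≤ M → Adm M R Q → Q ∈ Qset) ∧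
      (Qset.card : ℝ) ≤ C * (M : ℝ) ^ (3 / 4 + ε) := by
  obtain ⟨C, hC, hsum⟩ := sumQ ε hε
  refine ⟨2 * C + 2, by positivity, fun M hM => ?_⟩
  have hM0 : (0 : ℝ) < M := by exact_mod_cast hM
  have hM1 : (1 : ℝ) ≤ M := by exact_mod_cast hM
  obtain ⟨R, hRdef⟩ : ∃ R : ℕ, R = ⌈(M : ℝ) ^ (3 / 4 : ℝ)⌉₊ := ⟨_, rfl⟩
  have hR1 : (M : ℝ) ^ (3 / 4 : ℝ) ≤ R := by
    rw [hRdef]
    exact Nat.le_ceil _
  have hone : (1 : ℝ) ≤ (M : ℝ) ^ (3 / 4 : ℝ) := Real.one_le_rpow hM1 (by norm_num)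
  have hR2 : (R : ℝ) ≤ 2 * (M : ℝ) ^ (3 / 4 : ℝ) := by
    have := Nat.ceil_lt_add_one (a := (M : ℝ) ^ (3 / 4 : ℝ)) (by positivity)
    rw [← hRdef] at this
    linarith
  have hR0 : 1 ≤ R := by
    have : (1 : ℝ) ≤ R := hone.trans hR1
    exact_mod_cast this
  have hR4 : M ^ 3 ≤ R ^ 4 := by
    have h1 : ((M : ℝ) ^ (3 / 4 : ℝ)) ^ (4 : ℕ) ≤ (R : ℝ) ^ (4 : ℕ) :=
      pow_le_pow_left₀ (by positivity) hR1 4
    have h2 : ((M : ℝ) ^ (3 / 4 : ℝ)) ^ (4 : ℕ) = (M : ℝ) ^ (3 : ℕ) := by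
      rw [← Real.rpow_natCast, ← Real.rpow_mul hM0.le, ← Real.rpow_natCast]
      norm_num
    rw [h2] at h1
    exact_mod_cast h1
  obtain ⟨Qs', hQ1, hQ2⟩ := hsum M R hM hR0 AB AB_card
  classical
  refine ⟨R, Qs' ∪ Finset.Icc 1 R, hR4, ?_, ?_⟩
  · intro Q hQ hQM hA
    rw [Finset.mem_union]
    rcases hA with h | ⟨g, x, y, n1, n2, n3, k, p, hp, hg, hy, hx, h1, h2, h3, hk, c1, c2, c3,
      c4, c5, c6, hd, i1, i2, i3, rfl⟩
    · exact Or.inr (Finset.mem_Icc.2 ⟨hQ, h⟩)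
    · exact Or.inl (hQ2 g x y n1 n2 n3 k p hp hg hy hx h1 h2 h3 hk c1 c2 c3 c4 c5 c6 hd i1 i2 i3)
  · have h1 : ((Qs' ∪ Finset.Icc 1 R).card : ℝ) ≤ Qs'.card + R := by
      have := Finset.card_union_le Qs' (Finset.Icc 1 R)
      rw [Nat.card_Icc, Nat.add_sub_cancel] at this
      exact_mod_cast this
    have h2 : (1 : ℝ) ≤ (M : ℝ) ^ ε := Real.one_le_rpow hM1 hε.le
    have h3 : (R : ℝ) * (M : ℝ) ^ ε ≤ 2 * (M : ℝ) ^ (3 / 4 + ε) := by
      rw [Real.rpow_add hM0, ← mul_assoc]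
      exact mul_le_mul_of_nonneg_right hR2 (by positivity)
    have h4 : (R : ℝ) ≤ R * (M : ℝ) ^ ε := le_mul_of_one_le_right (by positivity) h2
    calc ((Qs' ∪ Finset.Icc 1 R).card : ℝ) ≤ Qs'.card + R := h1
      _ ≤ C * R * (M : ℝ) ^ ε + R * (M : ℝ) ^ ε := add_le_add hQ1 h4
      _ = (C + 1) * (R * (M : ℝ) ^ ε) := by ring
      _ ≤ (C + 1) * (2 * (M : ℝ) ^ (3 / 4 + ε)) := mul_le_mul_of_nonneg_left h3 (by positivity)
      _ = (2 * C + 2) * (M : ℝ) ^ (3 / 4 + ε) := by ring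

theorem main3 (ε : ℝ) (hε : 0 < ε) : ∃ C : ℝ,
    (∀ N : ℕ, 1 ≤ N → (Mag N).Finite ∧ ((Mag N).ncard : ℝ) ≤ C * (N : ℝ) ^ (3 / 8 + ε)) ∧
    ∀ M : ℕ, 1 ≤ M → (({m : ℕ | 1 ≤ m ∧ m ≤ M ∧ Ctr m} : Set ℕ).ncard : ℝ) ≤
      C * (M : ℝ) ^ (3 / 4 + ε) := by
  obtain ⟨C, hC, hB⟩ := exists_B (ε / 10) (by positivity)
  obtain ⟨D, hD, hA⟩ := adm_set (ε / 2) (by positivity)
  refine ⟨100 * D * C ^ 5 + 100 * D * C ^ 3, fun N hN => ?_, fun M hM => ?_⟩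
  · have hs : 1 ≤ Nat.sqrt N := Nat.sqrt_pos.2 hN
    obtain ⟨B, hB1, hB2⟩ := hB (Nat.sqrt N) hs
    obtain ⟨R, Qset, hR, hQ, hcQ⟩ := hA (Nat.sqrt N) hs
    obtain ⟨hfin, hcard⟩ := mag_card3 N R B hR hB1 Qset hQ
    refine ⟨hfin, ?_⟩
    have hN0 : (1 : ℝ) ≤ N := by exact_mod_cast hN
    have hs0 : (0 : ℝ) < Nat.sqrt N := by exact_mod_cast hs
    have h1 : ((Mag N).ncard : ℝ) ≤ 100 * (Qset.card : ℝ) * (B : ℝ) ^ 5 := by
      exact_mod_cast hcard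
    have h3 : ((Nat.sqrt N : ℕ) : ℝ) ≤ (N : ℝ) ^ (1 / 2 : ℝ) := by
      rw [← Real.sqrt_eq_rpow]
      exact Real.nat_sqrt_le_real_sqrt
    have h4 : (B : ℝ) ^ 5 ≤ C ^ 5 * ((Nat.sqrt N : ℕ) : ℝ) ^ (ε / 2) := by
      refine (pow_le_pow_left₀ (by positivity) hB2 5).trans (le_of_eq ?_)
      rw [mul_pow, ← Real.rpow_natCast (((Nat.sqrt N : ℕ) : ℝ) ^ (ε / 10)),
        ← Real.rpow_mul hs0.le]
      congr 2
      push_cast
      ring
    have h5 : ((Nat.sqrt N : ℕ) : ℝ) ^ (3 / 4 + ε / 2) * ((Nat.sqrt N : ℕ) : ℝ) ^ (ε / 2) ≤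
        (N : ℝ) ^ (3 / 8 + ε) := by
      rw [← Real.rpow_add hs0]
      refine (Real.rpow_le_rpow hs0.le h3 (by positivity)).trans ?_
      rw [← Real.rpow_mul (by positivity)]
      apply Real.rpow_le_rpow_of_exponent_le hN0
      linarith
    calc ((Mag N).ncard : ℝ) ≤ 100 * (Qset.card : ℝ) * (B : ℝ) ^ 5 := h1
      _ ≤ 100 * (D * ((Nat.sqrt N : ℕ) : ℝ) ^ (3 / 4 + ε / 2)) *
          (C ^ 5 * ((Nat.sqrt N : ℕ) : ℝ) ^ (ε / 2)) := by gcongr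
      _ = 100 * D * C ^ 5 * (((Nat.sqrt N : ℕ) : ℝ) ^ (3 / 4 + ε / 2) *
          ((Nat.sqrt N : ℕ) : ℝ) ^ (ε / 2)) := by ring
      _ ≤ 100 * D * C ^ 5 * (N : ℝ) ^ (3 / 8 + ε) :=
          mul_le_mul_of_nonneg_left h5 (by positivity)
      _ ≤ (100 * D * C ^ 5 + 100 * D * C ^ 3) * (N : ℝ) ^ (3 / 8 + ε) := by
          apply mul_le_mul_of_nonneg_right _ (by positivity)
          have : 0 ≤ 100 * D * C ^ 3 := by positivity
          linarith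
  · obtain ⟨B, hB1, hB2⟩ := hB M hM
    obtain ⟨R, Qset, hR, hQ, hcQ⟩ := hA M hM
    obtain ⟨W, hW1, hW2⟩ := centres3 M R B hR hB1 Qset hQ
    have hM0 : (1 : ℝ) ≤ M := by exact_mod_cast hM
    have hMp : (0 : ℝ) < M := by linarith
    have hsub : ({m : ℕ | 1 ≤ m ∧ m ≤ M ∧ Ctr m} : Set ℕ) ⊆ W := by
      rintro m ⟨h1, h2, h3⟩
      exact Finset.mem_coe.2 (hW2 m h1 h2 h3)
    have h0 := Set.ncard_le_ncard hsub W.finite_toSet
    rw [Set.ncard_coe_finset] at h0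
    have h1 : (({m : ℕ | 1 ≤ m ∧ m ≤ M ∧ Ctr m} : Set ℕ).ncard : ℝ) ≤
        100 * (Qset.card : ℝ) * (B : ℝ) ^ 3 := by
      exact_mod_cast h0.trans hW1
    have h4 : (B : ℝ) ^ 3 ≤ C ^ 3 * (M : ℝ) ^ (ε / 2) := by
      refine (pow_le_pow_left₀ (by positivity) hB2 3).trans ?_
      rw [mul_pow, ← Real.rpow_natCast ((M : ℝ) ^ (ε / 10)), ← Real.rpow_mul hMp.le]
      apply mul_le_mul_of_nonneg_left _ (by positivity)
      apply Real.rpow_le_rpow_of_exponent_le hM0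
      push_cast
      linarith
    calc (({m : ℕ | 1 ≤ m ∧ m ≤ M ∧ Ctr m} : Set ℕ).ncard : ℝ) ≤
        100 * (Qset.card : ℝ) * (B : ℝ) ^ 3 := h1
      _ ≤ 100 * (D * (M : ℝ) ^ (3 / 4 + ε / 2)) * (C ^ 3 * (M : ℝ) ^ (ε / 2)) := by gcongr
      _ = 100 * D * C ^ 3 * ((M : ℝ) ^ (3 / 4 + ε / 2) * (M : ℝ) ^ (ε / 2)) := by ring
      _ = 100 * D * C ^ 3 * (M : ℝ) ^ (3 / 4 + ε) := by
          rw [← Real.rpow_add hMp]
          congr 2
          ring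
      _ ≤ (100 * D * C ^ 5 + 100 * D * C ^ 3) * (M : ℝ) ^ (3 / 4 + ε) := by
          apply mul_le_mul_of_nonneg_right _ (by positivity)
          have : 0 ≤ 100 * D * C ^ 5 := by positivity
          linarith

end Pool.H68.MS
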