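import Pool.Agent.H68.MS.Cnt

/-!
# The congruence for the cells with an inner exponent one
-/

set_option autoImplicit false

namespace Pool.H68.MS

/-- the common part -/
def cc (p q : ℕ) (γ : GaussianInt) : GaussianInt :=
  if p = 2 ∧ q = 2 then γ else if p = 0 ∧ q = 0 then star γ else 1
/-- the opposite part -/
def ww (p q : ℕ) (γ : GaussianInt) : GaussianInt :=
  if p = 2 ∧ q = 0 then γ else if p = 0 ∧ q = 2 then star γ else 1
/-- the half part -/
def ff (p q : ℕ) (γ : GaussianInt) : GaussianInt :=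
  if (p = 2 ∧ q = 1) ∨ (p = 1 ∧ q = 0) then γ
  else if (p = 1 ∧ q = 2) ∨ (p = 0 ∧ q = 1) then star γ else 1
/-- the common half part -/
def rr (p q : ℕ) (γ : GaussianInt) : GaussianInt :=
  if (p = 2 ∧ q = 1) ∨ (p = 1 ∧ q = 2) then γ
  else if (p = 1 ∧ q = 0) ∨ (p = 0 ∧ q = 1) then star γ else 1

theorem split1 {p q : ℕ} (hp : p ≤ 2) (hq : q ≤ 2) (h : ¬ (p = 1 ∧ q = 1)) (γ : GaussianInt) :
    γ ^ p * (star γ) ^ (2 - p) = cc p q γ ^ 2 * ww p q γ ^ 2 * (ff p q γ * rr p q γ) := by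
  interval_cases p <;> interval_cases q <;> simp_all [cc, ww, ff, rr] <;> ring

theorem split2 {p q : ℕ} (hp : p ≤ 2) (hq : q ≤ 2) (h : ¬ (p = 1 ∧ q = 1)) (γ : GaussianInt) :
    γ ^ q * (star γ) ^ (2 - q) =
      cc p q γ ^ 2 * star (ww p q γ) ^ 2 * (star (ff p q γ) * rr p q γ) := by
  interval_cases p <;> interval_cases q <;> simp_all [cc, ww, ff, rr] <;> ring

theorem split3 {p q : ℕ} (hp : p ≤ 2) (hq : q ≤ 2) (h : ¬ (p = 1 ∧ q = 1)) (γ : GaussianInt) :
    (cc p q γ).norm * ((ww p q γ).norm * (ff p q γ).norm) = γ.norm := by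
  interval_cases p <;> interval_cases q <;>
    simp_all [cc, ww, ff, Zsqrtd.norm_conj, Zsqrtd.norm_one]

/-- the cells with an exponent one -/
def Bc : Fin 6 → Fin 10 := ![4, 5, 6, 7, 8, 9]
/-- first common cell -/
def A1 : Fin 6 → Fin 10 := ![0, 1, 0, 1, 0, 2]
/-- second common cell -/
def A2 : Fin 6 → Fin 10 := ![3, 2, 2, 3, 1, 3]
/-- the index with the exponent one -/
def J0 : Fin 6 → Fin 3 := ![0, 0, 1, 1, 2, 2]
/-- the other two -/
def J1 : Fin 6 → Fin 3 := ![1, 1, 0, 0, 0, 0]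
/-- the other two -/
def J2 : Fin 6 → Fin 3 := ![2, 2, 2, 2, 1, 1]
/-- conjugation of the last one -/
def fl : Fin 6 → Bool := ![false, true, false, true, false, true]
/-- first exponent -/
def pP (s : Fin 6) (l : Fin 10) : ℕ := pat l (J1 s)
/-- second exponent -/
def qQ (s : Fin 6) (l : Fin 10) : ℕ := if fl s then 2 - pat l (J2 s) else pat l (J2 s)

theorem pq_le : ∀ s l, pP s l ≤ 2 ∧ qQ s l ≤ 2 ∧ ¬ (pP s l = 1 ∧ qQ s l = 1) := by decide

theorem pq_B : ∀ s, pP s (Bc s) = 2 ∧ qQ s (Bc s) = 2 ∧ pat (Bc s) (J0 s) = 1 := by decide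

theorem J_ne : ∀ s, J0 s ≠ J1 s ∧ J0 s ≠ J2 s ∧ J1 s ≠ J2 s := by decide

theorem cc_norm (s : Fin 6) (γ : Fin 10 → GaussianInt) :
    ∏ l, (cc (pP s l) (qQ s l) (γ l)).norm =
      (γ (Bc s)).norm * (γ (A1 s)).norm * (γ (A2 s)).norm := by
  fin_cases s <;>
    simp [Fin.prod_univ_succ, cc, pP, qQ, pat, Bc, A1, A2, J1, J2, fl, Zsqrtd.norm_conj,
      Zsqrtd.norm_one] <;> ring

theorem norm_prod (h : Fin 10 → GaussianInt) : (∏ l, h l).norm = ∏ l, (h l).norm :=
  map_prod Zsqrtd.normMonoidHom h Finset.univ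

/-- `x` is primitive and `x`, `star x` are prime to `star g` -/
def Cpl (g x : GaussianInt) : Prop :=
  IsCoprime x.re x.im ∧ IsCoprime x (star g) ∧ IsCoprime (star x) (star g)

theorem cop_star {g x : GaussianInt} (h : ∀ p : ℕ, p.Prime → (p : GaussianInt) ∣ g * x →
    (p : GaussianInt) ∣ g * star g → False) : IsCoprime x (star g) := by
  apply isCoprime_of_prime_dvd
  · rintro ⟨h1, h2⟩
    have h3 : g = 0 := by simpa using congrArg star h2
    refine h 2 Nat.prime_two ?_ ?_ <;> rw [h3] <;> simp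
  · intro π hπ h1 h2
    have h3 : star π ∣ g := star_dvd h2
    have h4 : π * star π ∣ g * x := by
      rw [mul_comm g x]
      exact mul_dvd_mul h1 h3
    have h5 : π * star π ∣ g * star g := by
      rw [mul_comm g (star g)]
      exact mul_dvd_mul h2 h3
    have h6 : π.norm.natAbs ≠ 1 := fun h7 => hπ.not_isUnit (Zsqrtd.norm_eq_one_iff.1 h7)
    obtain ⟨p, hp, hpd⟩ := Nat.exists_prime_and_dvd h6
    have h7 : (p : GaussianInt) ∣ π * star π := by
      rw [mul_star]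
      have h8 : (p : ℤ) ∣ π.norm := Int.natCast_dvd.2 hpd
      obtain ⟨c, hc⟩ := h8
      refine ⟨(c : GaussianInt), ?_⟩
      rw [hc]
      push_cast
      ring
    exact h p hp (h7.trans h4) (h7.trans h5)

theorem star_im (z : GaussianInt) : ((star z) ^ 2).im = -(z ^ 2).im := by
  simp [pow_two]
  ring

theorem unit_sq {u : GaussianInt} (hu : u.norm = 1) : ∃ e : ℤ, (e = 1 ∨ e = -1) ∧
    u ^ 2 = (e : GaussianInt) := by
  have h1 : IsUnit u := Zsqrtd.norm_eq_one_iff.1 (by rw [hu]; rfl)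
  have h2 := unit_mem h1
  unfold U at h2
  simp only [Finset.mem_insert, Finset.mem_singleton] at h2
  rcases h2 with rfl | rfl | rfl | rfl
  · exact ⟨1, Or.inl rfl, by ext <;> simp [pow_two]⟩
  · exact ⟨1, Or.inl rfl, by ext <;> simp [pow_two]⟩
  · exact ⟨-1, Or.inr rfl, by ext <;> simp [pow_two]⟩
  · exact ⟨-1, Or.inr rfl, by ext <;> simp [pow_two]⟩

end Pool.H68.MS
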