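import Pool.Agent.H68.MS.Form
import Pool.Agent.H92.DivBound

/-!
# Counting the centres and the magic squares
-/

set_option autoImplicit false

namespace Pool.H68.MS

/-- `m ^ 2` is the middle of a pattern of seven squares -/
def Ctr (m : ℕ) : Prop := ∃ a b : ℤ, a ≠ 0 ∧ b ≠ 0 ∧ a + b ≠ 0 ∧
  (∀ D ∈ ({a, b, a + b} : Set ℤ), IsSquare ((m : ℤ) ^ 2 + D) ∧ IsSquare ((m : ℤ) ^ 2 - D)) ∧
  ∀ p : ℕ, p.Prime → p ∣ m → ¬ ((p : ℤ) ^ 2 ∣ a ∧ (p : ℤ) ^ 2 ∣ b)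

theorem gauss {m : ℕ} {D : ℤ} (h1 : IsSquare ((m : ℤ) ^ 2 + D)) (h2 : IsSquare ((m : ℤ) ^ 2 - D)) :
    ∃ β : GaussianInt, β.norm = (m : ℤ) ^ 2 ∧ (β ^ 2).im = D := by
  obtain ⟨y, hy⟩ := h1
  obtain ⟨x, hx⟩ := h2
  have hpar : ∃ u v : ℤ, y = u + v ∧ x = u - v := by
    rcases Int.even_or_odd' x with ⟨a, ha | ha⟩ <;> rcases Int.even_or_odd' y with ⟨b, hb | hb⟩
    · exact ⟨a + b, b - a, by rw [hb]; ring, by rw [ha]; ring⟩
    · exfalso
      rw [hb] at hy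
      rw [ha] at hx
      have : 2 * (D + 2 * a ^ 2 - 2 * b ^ 2 - 2 * b) = 1 := by linear_combination hy - hx
      omega
    · exfalso
      rw [hb] at hy
      rw [ha] at hx
      have : 2 * (D + 2 * a ^ 2 + 2 * a - 2 * b ^ 2) = -1 := by linear_combination hy - hx
      omega
    · exact ⟨a + b + 1, b - a, by rw [hb]; ring, by rw [ha]; ring⟩
  obtain ⟨u, v, rfl, rfl⟩ := hpar
  refine ⟨⟨u, v⟩, ?_, ?_⟩
  · rw [Zsqrtd.norm_def]
    have : 2 * (u * u - -1 * v * v) = 2 * (m : ℤ) ^ 2 := by linear_combination -hy - hx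
    exact mul_left_cancel₀ two_ne_zero this
  · have h3 : ((⟨u, v⟩ : GaussianInt) ^ 2).im = 2 * u * v := by
      simp [pow_two]
      ring
    rw [h3]
    have : 2 * (2 * u * v) = 2 * D := by linear_combination hx - hy
    exact mul_left_cancel₀ two_ne_zero this

theorem int_mul (n : ℤ) (x : GaussianInt) : ((n : GaussianInt) * x).re = n * x.re ∧
    ((n : GaussianInt) * x).im = n * x.im := by
  constructor <;> simp

theorem sq_dvd_im {p : ℕ} {β : GaussianInt} (h : (p : GaussianInt) ∣ β) :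
    (p : ℤ) ^ 2 ∣ (β ^ 2).im := by
  obtain ⟨c, rfl⟩ := h
  refine ⟨(c ^ 2).im, ?_⟩
  have h1 : ((p : GaussianInt) * c) ^ 2 = (((p : ℤ) ^ 2 : ℤ) : GaussianInt) * c ^ 2 := by
    push_cast
    ring
  rw [h1, (int_mul _ _).2]

theorem dvd_of_norm {p m : ℕ} (hp : p.Prime) {β : GaussianInt} (h : (p : GaussianInt) ∣ β)
    (hn : β.norm = (m : ℤ) ^ 2) : p ∣ m := by
  obtain ⟨c, rfl⟩ := h
  rw [Zsqrtd.norm_mul, cast_norm] at hn
  have h1 : (p : ℤ) ∣ (m : ℤ) ^ 2 := ⟨p * c.norm, by rw [← hn]; ring⟩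
  have h2 : p ∣ m ^ 2 := by exact_mod_cast h1
  exact hp.dvd_of_dvd_pow h2

theorem nat_dvd_of {p : ℕ} {γ : GaussianInt} (h1 : (p : ℤ) ∣ γ.re) (h2 : (p : ℤ) ∣ γ.im) :
    (p : GaussianInt) ∣ γ := by
  obtain ⟨a, ha⟩ := h1
  obtain ⟨b, hb⟩ := h2
  refine ⟨⟨a, b⟩, ?_⟩
  have h3 : (p : GaussianInt) = ((p : ℤ) : GaussianInt) := by simp
  rw [h3]
  ext
  · rw [(int_mul _ _).1, ha]
  · rw [(int_mul _ _).2, hb]

/-- the data of a centre -/
theorem centre {m : ℕ} (hm : 0 < m) (h : Ctr m) :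
    ∃ (i : Fin 10) (γ : GaussianInt) (δ : Fin 3 → GaussianInt) (Q : ℕ), 0 < Q ∧
      (m : ℤ) = γ.norm * Q ∧ (∀ j, (δ j).norm = (Q : ℤ) ^ 2) ∧ Q ^ 10 ≤ m ^ 9 ∧
      IsCoprime γ.re γ.im ∧ (bet i δ γ 0 ^ 2).im + (bet i δ γ 1 ^ 2).im = (bet i δ γ 2 ^ 2).im ∧
      ∀ j, (bet i δ γ j ^ 2).im ≠ 0 := by
  obtain ⟨a, b, ha, hb, hab, hsq, hp⟩ := h
  obtain ⟨β0, h01, h02⟩ := gauss (hsq a (by simp)).1 (hsq a (by simp)).2
  obtain ⟨β1, h11, h12⟩ := gauss (hsq b (by simp)).1 (hsq b (by simp)).2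
  obtain ⟨β2, h21, h22⟩ := gauss (hsq (a + b) (by simp)).1 (hsq (a + b) (by simp)).2
  let β : Fin 3 → GaussianInt := ![β0, β1, β2]
  have hN : ∀ j, (β j).norm = (m : ℤ) ^ 2 := by
    intro j
    fin_cases j
    · exact h01
    · exact h11
    · exact h21
  have key : ∀ p : ℕ, p.Prime → ∀ i j : Fin 3, i ≠ j → (p : GaussianInt) ∣ β i →
      (p : GaussianInt) ∣ β j → False := by
    intro p hpp i j hij hi hj
    refine hp p hpp (dvd_of_norm hpp hi (hN i)) ?_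
    have hi' := sq_dvd_im hi
    have hj' := sq_dvd_im hj
    have e0 : (β 0 ^ 2).im = a := h02
    have e1 : (β 1 ^ 2).im = b := h12
    have e2 : (β 2 ^ 2).im = a + b := h22
    have f1 : (p : ℤ) ^ 2 ∣ a → (p : ℤ) ^ 2 ∣ a + b → (p : ℤ) ^ 2 ∣ b := fun x y => by
      have := dvd_sub y x
      simpa using this
    have f2 : (p : ℤ) ^ 2 ∣ b → (p : ℤ) ^ 2 ∣ a + b → (p : ℤ) ^ 2 ∣ a := fun x y => by
      have := dvd_sub y x
      simpa using this
    fin_cases i <;> fin_cases j <;>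
      simp only [Fin.zero_eta, Fin.mk_one, Fin.reduceFinMk, e0, e1, e2] at hi' hj' <;>
      first
        | exact absurd rfl hij
        | exact ⟨hi', hj'⟩
        | exact ⟨hj', hi'⟩
        | exact ⟨hi', f1 hi' hj'⟩
        | exact ⟨hj', f1 hj' hi'⟩
        | exact ⟨f2 hi' hj', hi'⟩
        | exact ⟨f2 hj' hi', hj'⟩
  have hC : Cop β := fun p hpp i j hij h => key p hpp i j hij h.1 h.2
  obtain ⟨i, γ, δ, Q, hQ0, hmQ, hδ, hQm, hβ⟩ := big_cell hm hN hC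
  have hβ' : ∀ j, bet i δ γ j = β j := fun j => (hβ j).symm
  refine ⟨i, γ, δ, Q, hQ0, hmQ, hδ, hQm, ?_, ?_, fun j => ?_⟩
  · rw [Int.isCoprime_iff_gcd_eq_one]
    by_contra hg
    obtain ⟨p, hpp, hpd⟩ := Nat.exists_prime_and_dvd hg
    have h1 : (p : ℤ) ∣ γ.re := (Int.natCast_dvd_natCast.2 hpd).trans (Int.gcd_dvd_left ..)
    have h2 : (p : ℤ) ∣ γ.im := (Int.natCast_dvd_natCast.2 hpd).trans (Int.gcd_dvd_right ..)
    have h3 := nat_dvd_of h1 h2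
    have h4 : (p : GaussianInt) ∣ star γ := by
      apply nat_dvd_star
      rwa [star_star]
    have h5 : ∀ j, (p : GaussianInt) ∣ β j := by
      intro j
      rw [hβ j]
      apply Dvd.dvd.mul_right
      rcases Nat.eq_zero_or_pos (pat i j) with h6 | h6
      · rw [h6]
        exact (dvd_pow h4 (by norm_num)).mul_left _
      · exact (dvd_pow h3 h6.ne').mul_right _
    exact key p hpp 0 1 (by decide) (h5 0) (h5 1)
  · rw [hβ' 0, hβ' 1, hβ' 2]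
    exact (congrArg₂ (· + ·) h02 h12).trans h22.symm
  · rw [hβ' j]
    fin_cases j
    · exact fun h => ha (h02.symm.trans h)
    · exact fun h => hb (h12.symm.trans h)
    · exact fun h => hab (h22.symm.trans h)

/-- the cofactor norms -/
def Qs (M : ℕ) : Finset ℕ := (Finset.Icc 1 M).filter fun Q => Q ^ 10 ≤ M ^ 9

theorem centres (M B : ℕ) (hB : ∀ Q, 0 < Q → Q ≤ M → 4 * (Q ^ 2).divisors.card ^ 4 ≤ B) :
    ∃ W : Finset ℕ, W.card ≤ 100 * (Qs M).card * B ^ 3 ∧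
      ∀ m, 0 < m → m ≤ M → Ctr m → m ∈ W := by
  classical
  have hS : ∀ Q : ℕ, ∃ S : Finset GaussianInt, (0 < Q → S.card ≤ 4 * (Q ^ 2).divisors.card ^ 4) ∧
      (0 < Q → ∀ β : GaussianInt, β.norm = ((Q ^ 2 : ℕ) : ℤ) → β ∈ S) := by
    intro Q
    by_cases h : 0 < Q
    · obtain ⟨S, h1, h2⟩ := div_set (Q ^ 2) (by positivity)
      exact ⟨S, fun _ => h1, fun _ => h2⟩
    · exact ⟨∅, fun h' => absurd h' h, fun h' => absurd h' h⟩
  choose S hS1 hS2 using hS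
  have hF : ∀ (i : Fin 10) (Q : ℕ) (δ : Fin 3 → GaussianInt), ∃ F : Finset GaussianInt,
      F.card ≤ 10 ∧ (0 < Q → (∀ j, (δ j).norm = (Q : ℤ) ^ 2) → ∀ γ : GaussianInt,
        IsCoprime γ.re γ.im →
        (bet i δ γ 0 ^ 2).im + (bet i δ γ 1 ^ 2).im = (bet i δ γ 2 ^ 2).im →
        (∀ j, (bet i δ γ j ^ 2).im ≠ 0) → γ ∈ F) := by
    intro i Q δ
    by_cases h : 0 < Q ∧ ∀ j, (δ j).norm = (Q : ℤ) ^ 2
    · obtain ⟨F, h1, h2⟩ := few_cells i δ Q h.1 h.2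
      exact ⟨F, h1, fun _ _ => h2⟩
    · exact ⟨∅, by simp, fun h1 h2 => absurd ⟨h1, h2⟩ h⟩
  choose F hF1 hF2 using hF
  refine ⟨(Finset.univ ×ˢ Qs M).biUnion fun x : Fin 10 × ℕ =>
    (Fintype.piFinset fun _ : Fin 3 => S x.2).biUnion fun δ =>
      (F x.1 x.2 δ).image fun γ => γ.norm.toNat * x.2, ?_, ?_⟩
  · have h1 : ∀ x ∈ (Finset.univ ×ˢ Qs M : Finset (Fin 10 × ℕ)),
        ((Fintype.piFinset fun _ : Fin 3 => S x.2).biUnion fun δ =>
          (F x.1 x.2 δ).image fun γ => γ.norm.toNat * x.2).card ≤ B ^ 3 * 10 := by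
      intro x hx
      have hx2 := (Finset.mem_product.1 hx).2
      unfold Qs at hx2
      rw [Finset.mem_filter, Finset.mem_Icc] at hx2
      have h2 : ((Fintype.piFinset fun _ : Fin 3 => S x.2)).card ≤ B ^ 3 := by
        rw [Fintype.card_piFinset, Finset.prod_const, Finset.card_univ, Fintype.card_fin]
        exact Nat.pow_le_pow_left ((hS1 x.2 hx2.1.1).trans (hB x.2 hx2.1.1 hx2.1.2)) 3
      refine (Finset.card_biUnion_le_card_mul _ _ 10 fun δ _ => ?_).trans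
        (Nat.mul_le_mul_right 10 h2)
      exact Finset.card_image_le.trans (hF1 _ _ _)
    refine (Finset.card_biUnion_le_card_mul _ _ _ h1).trans ?_
    rw [Finset.card_product, Finset.card_univ, Fintype.card_fin]
    apply le_of_eq
    ring
  · intro m hm hmM hc
    obtain ⟨i, γ, δ, Q, hQ0, hmQ, hδ, hQm, hco, hrel, hne⟩ := centre hm hc
    rw [Finset.mem_biUnion]
    have hQM : Q ≤ M := by
      by_contra hcon
      push Not at hcon
      have h1 : M ^ 10 < Q ^ 10 := Nat.pow_lt_pow_left hcon (by norm_num)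
      have h2 : m ^ 9 ≤ M ^ 9 := Nat.pow_le_pow_left hmM 9
      have h3 : M ^ 9 ≤ M ^ 10 := Nat.pow_le_pow_right (by omega) (by norm_num)
      omega
    refine ⟨(i, Q), Finset.mem_product.2 ⟨Finset.mem_univ _, ?_⟩, ?_⟩
    · unfold Qs
      rw [Finset.mem_filter, Finset.mem_Icc]
      exact ⟨⟨hQ0, hQM⟩, hQm.trans (Nat.pow_le_pow_left hmM 9)⟩
    · rw [Finset.mem_biUnion]
      refine ⟨δ, ?_, ?_⟩
      · rw [Fintype.mem_piFinset]
        intro j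
        apply hS2 Q hQ0
        rw [hδ j]
        push_cast
        rfl
      · rw [Finset.mem_image]
        refine ⟨γ, hF2 i Q δ hQ0 hδ γ hco hrel hne, ?_⟩
        have h1 : 0 ≤ γ.norm := Zsqrtd.norm_nonneg (by norm_num) _
        have h2 : ((γ.norm.toNat * Q : ℕ) : ℤ) = m := by
          push_cast
          rw [Int.toNat_of_nonneg h1, hmQ]
        exact_mod_cast h2

end Pool.H68.MS
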