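import Pool.Agent.H68.MS.Cell

/-!
# The congruence for the cells with an inner exponent one
-/

set_option autoImplicit false

namespace Pool.H68.MS

theorem prod_split (s : Fin 6) (γ : Fin 10 → GaussianInt) :
    ∏ i, ((γ i) ^ (pP s i) * (star (γ i)) ^ (2 - pP s i)) =
      (∏ l, cc (pP s l) (qQ s l) (γ l)) ^ 2 * (∏ l, ww (pP s l) (qQ s l) (γ l)) ^ 2 *
      ((∏ l, ff (pP s l) (qQ s l) (γ l)) * ∏ l, rr (pP s l) (qQ s l) (γ l)) := by
  rw [← Finset.prod_pow, ← Finset.prod_pow, ← Finset.prod_mul_distrib, ← Finset.prod_mul_distrib,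
    ← Finset.prod_mul_distrib]
  exact Finset.prod_congr rfl fun l _ => split1 (pq_le s l).1 (pq_le s l).2.1 (pq_le s l).2.2 _

theorem prod_split' (s : Fin 6) (γ : Fin 10 → GaussianInt) :
    ∏ i, ((γ i) ^ (qQ s i) * (star (γ i)) ^ (2 - qQ s i)) =
      (∏ l, cc (pP s l) (qQ s l) (γ l)) ^ 2 * (star (∏ l, ww (pP s l) (qQ s l) (γ l))) ^ 2 *
      (star (∏ l, ff (pP s l) (qQ s l) (γ l)) * ∏ l, rr (pP s l) (qQ s l) (γ l)) := by
  rw [star_prod, star_prod, ← Finset.prod_pow, ← Finset.prod_pow, ← Finset.prod_mul_distrib,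
    ← Finset.prod_mul_distrib, ← Finset.prod_mul_distrib]
  exact Finset.prod_congr rfl fun l _ => split2 (pq_le s l).1 (pq_le s l).2.1 (pq_le s l).2.2 _

/-- the last number, conjugated when needed -/
def flip (s : Fin 6) (z : GaussianInt) : GaussianInt := if fl s then star z else z

theorem flip_dvd {s : Fin 6} {p : ℕ} {z : GaussianInt} (h : (p : GaussianInt) ∣ flip s z) :
    (p : GaussianInt) ∣ z := by
  unfold flip at h
  split_ifs at h
  · exact nat_dvd_star h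
  · exact h

theorem flip_norm (s : Fin 6) (z : GaussianInt) : (flip s z).norm = z.norm := by
  unfold flip
  split_ifs
  · exact Zsqrtd.norm_conj z
  · rfl

theorem flip_form (s : Fin 6) (γ : Fin 10 → GaussianInt) (u z : GaussianInt)
    (h : z = u * ∏ i, ((γ i) ^ (pat i (J2 s)) * (star (γ i)) ^ (2 - pat i (J2 s)))) :
    flip s z = flip s u * ∏ i, ((γ i) ^ (qQ s i) * (star (γ i)) ^ (2 - qQ s i)) := by
  unfold flip qQ
  rw [h]
  by_cases hs : fl s
  · simp only [hs, if_true]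
    rw [StarMul.star_mul, star_prod, mul_comm]
    congr 1
    refine Finset.prod_congr rfl fun l _ => ?_
    have h1 : 2 - (2 - pat l (J2 s)) = pat l (J2 s) := by
      have := pat_le l (J2 s)
      omega
    rw [h1, StarMul.star_mul, star_pow, star_pow, star_star]
  · simp only [hs]
    rfl

theorem signed (s : Fin 6) (β : Fin 3 → GaussianInt)
    (hrel : (β 0 ^ 2).im + (β 1 ^ 2).im = (β 2 ^ 2).im) :
    ∃ t1 t2 : ℤ, (t1 = 1 ∨ t1 = -1) ∧ (t2 = 1 ∨ t2 = -1) ∧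
      (β (J0 s) ^ 2).im = t1 * (β (J1 s) ^ 2).im + t2 * ((flip s (β (J2 s))) ^ 2).im := by
  fin_cases s
  · exact ⟨-1, 1, by simp, by simp, by simp [J0, J1, J2, flip, fl]; linarith⟩
  · exact ⟨-1, -1, by simp, by simp, by simp [J0, J1, J2, flip, fl, star_im]; linarith⟩
  · exact ⟨-1, 1, by simp, by simp, by simp [J0, J1, J2, flip, fl]; linarith⟩
  · exact ⟨-1, -1, by simp, by simp, by simp [J0, J1, J2, flip, fl, star_im]; linarith⟩
  · exact ⟨1, 1, by simp, by simp, by simp [J0, J1, J2, flip, fl]; linarith⟩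
  · exact ⟨1, -1, by simp, by simp, by simp [J0, J1, J2, flip, fl, star_im]; linarith⟩

/-- the difference with the conjugate -/
theorem sub_star (z : GaussianInt) : z - star z = 2 * ⟨0, 1⟩ * ((z.im : ℤ) : GaussianInt) := by
  ext <;> simp
  ring

theorem cell_data {m : ℕ} {β : Fin 3 → GaussianInt} (hC : Cop β)
    (hrel : (β 0 ^ 2).im + (β 1 ^ 2).im = (β 2 ^ 2).im)
    {γ : Fin 10 → GaussianInt} {u : Fin 3 → GaussianInt} (hu : ∀ j, (u j).norm = 1)
    (hβ : ∀ j, β j = u j * ∏ i, ((γ i) ^ (pat i j) * (star (γ i)) ^ (2 - pat i j)))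
    (hmm : (m : ℤ) = ∏ i, (γ i).norm) (s : Fin 6) :
    ∃ (w f : GaussianInt) (ε : ℤ), (ε = 1 ∨ ε = -1) ∧
      IsCoprime (γ (Bc s)) (star (γ (Bc s))) ∧ Cpl (γ (Bc s)) w ∧ Cpl (γ (Bc s)) f ∧
      (m : ℤ) = (γ (Bc s)).norm * (γ (A1 s)).norm * (γ (A2 s)).norm * (w.norm * f.norm) ∧
      (star (γ (Bc s))) ^ 2 ∣ w ^ 4 * f ^ 2 - (ε : GaussianInt) * (star w ^ 4 * star f ^ 2) := by
  obtain ⟨c, hc⟩ : ∃ c, c = ∏ l, cc (pP s l) (qQ s l) (γ l) := ⟨_, rfl⟩
  obtain ⟨w, hw⟩ : ∃ w, w = ∏ l, ww (pP s l) (qQ s l) (γ l) := ⟨_, rfl⟩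
  obtain ⟨f, hf⟩ : ∃ f, f = ∏ l, ff (pP s l) (qQ s l) (γ l) := ⟨_, rfl⟩
  obtain ⟨r, hr⟩ : ∃ r, r = ∏ l, rr (pP s l) (qQ s l) (γ l) := ⟨_, rfl⟩
  obtain ⟨g, hg⟩ : ∃ g, g = γ (Bc s) := ⟨_, rfl⟩
  have e1 : β (J1 s) = u (J1 s) * (c ^ 2 * w ^ 2 * (f * r)) := by
    have h := prod_split s γ
    rw [← hc, ← hw, ← hf, ← hr] at h
    rw [hβ (J1 s), ← h]
    rfl
  have e2 : flip s (β (J2 s)) = flip s (u (J2 s)) * (c ^ 2 * star w ^ 2 * (star f * r)) := by
    have h := prod_split' s γ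
    rw [← hc, ← hw, ← hf, ← hr] at h
    rw [flip_form s γ _ _ (hβ (J2 s)), ← h]
  obtain ⟨b1, hb1⟩ : ∃ b, b = β (J1 s) := ⟨_, rfl⟩
  obtain ⟨b2, hb2⟩ : ∃ b, b = flip s (β (J2 s)) := ⟨_, rfl⟩
  obtain ⟨v1, hv1⟩ : ∃ v, v = u (J1 s) := ⟨_, rfl⟩
  obtain ⟨v2, hv2⟩ : ∃ v, v = flip s (u (J2 s)) := ⟨_, rfl⟩
  have hgc : g ∣ c := by
    have h := Finset.dvd_prod_of_mem (fun l => cc (pP s l) (qQ s l) (γ l)) (Finset.mem_univ (Bc s))
    have h2 : cc (pP s (Bc s)) (qQ s (Bc s)) (γ (Bc s)) = g := by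
      rw [(pq_B s).1, (pq_B s).2.1, hg]
      simp [cc]
    rw [hc, ← h2]
    exact h
  have hg0 : g * star g ∣ β (J0 s) := by
    have h := Finset.dvd_prod_of_mem
      (fun i => (γ i) ^ (pat i (J0 s)) * (star (γ i)) ^ (2 - pat i (J0 s)))
      (Finset.mem_univ (Bc s))
    simp only [(pq_B s).2.2] at h
    rw [hβ (J0 s)]
    refine Dvd.dvd.mul_left ?_ _
    rw [hg]
    simpa using h
  rw [← hb1, ← hv1] at e1
  rw [← hb2, ← hv2] at e2
  have d1 : ∀ p : ℕ, (p : GaussianInt) ∣ b1 → (p : GaussianInt) ∣ β (J1 s) := fun p h => hb1 ▸ h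
  have d2 : ∀ p : ℕ, (p : GaussianInt) ∣ b2 → (p : GaussianInt) ∣ β (J2 s) :=
    fun p h => flip_dvd (s := s) (hb2 ▸ h)
  have k12 : ∀ p : ℕ, p.Prime → (p : GaussianInt) ∣ b1 → (p : GaussianInt) ∣ b2 → False :=
    fun p hp h1 h2 => hC p hp _ _ (J_ne s).2.2 ⟨d1 p h1, d2 p h2⟩
  have k01 : ∀ p : ℕ, p.Prime → (p : GaussianInt) ∣ g * star g → (p : GaussianInt) ∣ b1 → False :=
    fun p hp h1 h2 => hC p hp _ _ (J_ne s).1 ⟨h1.trans hg0, d1 p h2⟩
  have k02 : ∀ p : ℕ, p.Prime → (p : GaussianInt) ∣ g * star g → (p : GaussianInt) ∣ b2 → False :=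
    fun p hp h1 h2 => hC p hp _ _ (J_ne s).2.1 ⟨h1.trans hg0, d2 p h2⟩
  have hcc : g * c ∣ c ^ 2 := by
    rw [pow_two]
    exact mul_dvd_mul_right hgc c
  -- coprimality
  have cg : IsCoprime g (star g) := by
    apply cop_star
    intro p hp h1 h2
    have h3 : (p : GaussianInt) ∣ c ^ 2 := (h1.trans (mul_dvd_mul_left g hgc)).trans hcc
    exact k12 p hp (e1 ▸ ((h3.mul_right _).mul_right _).mul_left _)
      (e2 ▸ ((h3.mul_right _).mul_right _).mul_left _)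
  have cC : IsCoprime c (star g) := by
    apply cop_star
    intro p hp h1 h2
    have h3 : (p : GaussianInt) ∣ c ^ 2 := h1.trans hcc
    exact k12 p hp (e1 ▸ ((h3.mul_right _).mul_right _).mul_left _)
      (e2 ▸ ((h3.mul_right _).mul_right _).mul_left _)
  have cR : IsCoprime r (star g) := by
    apply cop_star
    intro p hp h1 h2
    have h3 : (p : GaussianInt) ∣ c ^ 2 * r :=
      h1.trans (mul_dvd_mul_right (hgc.trans (dvd_pow_self c two_ne_zero)) r)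
    refine k12 p hp (e1 ▸ h3.trans ⟨v1 * w ^ 2 * f, by ring⟩)
      (e2 ▸ h3.trans ⟨v2 * star w ^ 2 * star f, by ring⟩)
  have hgc2 : g ∣ c ^ 2 := hgc.trans (dvd_pow_self c two_ne_zero)
  have cW : IsCoprime w (star g) := by
    apply cop_star
    intro p hp h1 h2
    refine k01 p hp h2 (e1 ▸ h1.trans ((mul_dvd_mul_right hgc2 w).trans ?_))
    exact ⟨v1 * w * (f * r), by ring⟩
  have cW' : IsCoprime (star w) (star g) := by
    apply cop_star
    intro p hp h1 h2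
    refine k02 p hp h2 (e2 ▸ h1.trans ((mul_dvd_mul_right hgc2 (star w)).trans ?_))
    exact ⟨v2 * star w * (star f * r), by ring⟩
  have cF : IsCoprime f (star g) := by
    apply cop_star
    intro p hp h1 h2
    refine k01 p hp h2 (e1 ▸ h1.trans ((mul_dvd_mul_right hgc2 f).trans ?_))
    exact ⟨v1 * w ^ 2 * r, by ring⟩
  have cF' : IsCoprime (star f) (star g) := by
    apply cop_star
    intro p hp h1 h2
    refine k02 p hp h2 (e2 ▸ h1.trans ((mul_dvd_mul_right hgc2 (star f)).trans ?_))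
    exact ⟨v2 * star w ^ 2 * r, by ring⟩
  have prim : ∀ x : GaussianInt, x ∣ b1 → star x ∣ b2 → IsCoprime x.re x.im := by
    intro x h1 h2
    rw [Int.isCoprime_iff_gcd_eq_one]
    by_contra hgn
    obtain ⟨p, hpp, hpd⟩ := Nat.exists_prime_and_dvd hgn
    have h3 : (p : ℤ) ∣ x.re := (Int.natCast_dvd_natCast.2 hpd).trans (Int.gcd_dvd_left ..)
    have h4 : (p : ℤ) ∣ x.im := (Int.natCast_dvd_natCast.2 hpd).trans (Int.gcd_dvd_right ..)
    have h5 := nat_dvd_of h3 h4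
    have h6 : (p : GaussianInt) ∣ star x := by
      apply nat_dvd_star
      rwa [star_star]
    exact k12 p hpp (h5.trans h1) (h6.trans h2)
  have pW : IsCoprime w.re w.im := prim w ⟨v1 * c ^ 2 * w * (f * r), by rw [e1]; ring⟩
    ⟨v2 * c ^ 2 * star w * (star f * r), by rw [e2]; ring⟩
  have pF : IsCoprime f.re f.im := prim f ⟨v1 * c ^ 2 * w ^ 2 * r, by rw [e1]; ring⟩
    ⟨v2 * c ^ 2 * star w ^ 2 * r, by rw [e2]; ring⟩
  -- the congruence
  obtain ⟨t1, t2, ht1, ht2, hs⟩ := signed s β hrel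
  rw [← hb1, ← hb2] at hs
  obtain ⟨q1, hq1, hq1'⟩ := unit_sq (u := v1) (by rw [hv1]; exact hu _)
  obtain ⟨q2, hq2, hq2'⟩ := unit_sq (u := v2) (by rw [hv2, flip_norm]; exact hu _)
  have hcong : (star g) ^ 2 ∣ ((t1 * q1 : ℤ) : GaussianInt) * (w ^ 4 * f ^ 2) +
      ((t2 * q2 : ℤ) : GaussianInt) * (star w ^ 4 * star f ^ 2) := by
    obtain ⟨T, hT⟩ : ∃ T, T = ((t1 * q1 : ℤ) : GaussianInt) * (w ^ 4 * f ^ 2) +
      ((t2 * q2 : ℤ) : GaussianInt) * (star w ^ 4 * star f ^ 2) := ⟨_, rfl⟩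
    rw [← hT]
    obtain ⟨Z, hZ⟩ : ∃ Z, Z = (t1 : GaussianInt) * b1 ^ 2 + (t2 : GaussianInt) * b2 ^ 2 := ⟨_, rfl⟩
    have hZT : Z = (c ^ 4 * r ^ 2) * T := by
      rw [hZ, hT, e1, e2]
      push_cast
      rw [← hq1', ← hq2']
      ring
    have hZim : Z.im = (β (J0 s) ^ 2).im := by
      rw [hs, hZ]
      simp
    have h1 : (star g) ^ 2 ∣ Z - star Z := by
      rw [sub_star, hZim]
      obtain ⟨x, hx⟩ := hg0
      have h2 : (((β (J0 s) ^ 2).im : ℤ) : GaussianInt) =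
          (g * star g) ^ 2 * (((x ^ 2).im : ℤ) : GaussianInt) := by
        rw [mul_star] at hx
        have h3 : β (J0 s) ^ 2 = ((g.norm ^ 2 : ℤ) : GaussianInt) * x ^ 2 := by
          rw [hx]
          push_cast
          ring
        rw [h3, (int_mul _ _).2, mul_star]
        push_cast
        ring
      rw [h2]
      exact ⟨2 * ⟨0, 1⟩ * g ^ 2 * (((x ^ 2).im : ℤ) : GaussianInt), by ring⟩
    have h2 : (star g) ^ 2 ∣ star Z := by
      rw [hZT, StarMul.star_mul, StarMul.star_mul, star_pow, star_pow]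
      have h3 : star g ∣ star c := star_dvd' hgc
      obtain ⟨y, hy⟩ := h3
      rw [hy]
      exact ⟨star T * (star r ^ 2 * (star g ^ 2 * y ^ 4)), by ring⟩
    have h3 : (star g) ^ 2 ∣ (c ^ 4 * r ^ 2) * T := by
      rw [← hZT]
      have h4 := dvd_add h1 h2
      rwa [sub_add_cancel] at h4
    have h4 : IsCoprime ((star g) ^ 2) (c ^ 4 * r ^ 2) := by
      apply IsCoprime.symm
      exact IsCoprime.mul_left (IsCoprime.pow cC) (IsCoprime.pow cR)
    exact h4.dvd_of_dvd_mul_left h3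
  refine ⟨w, f, -(t1 * q1 * (t2 * q2)), ?_, ?_, ?_, ?_, ?_, ?_⟩
  · rcases ht1 with rfl | rfl <;> rcases ht2 with rfl | rfl <;> rcases hq1 with rfl | rfl <;>
      rcases hq2 with rfl | rfl <;> simp
  · rw [← hg]
    exact cg
  · rw [← hg]
    exact ⟨pW, cW, cW'⟩
  · rw [← hg]
    exact ⟨pF, cF, cF'⟩
  · rw [← cc_norm s γ, hw, hf, norm_prod, norm_prod, ← Finset.prod_mul_distrib,
      ← Finset.prod_mul_distrib, hmm]
    exact Finset.prod_congr rfl fun l _ =>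
      (split3 (pq_le s l).1 (pq_le s l).2.1 (pq_le s l).2.2 _).symm
  · rw [← hg]
    have h5 : (t1 * q1) * (t1 * q1) = 1 := by
      rcases ht1 with rfl | rfl <;> rcases hq1 with rfl | rfl <;> norm_num
    have h6 : (((t1 * q1 : ℤ) : GaussianInt)) * ((t1 * q1 : ℤ) : GaussianInt) = 1 := by
      exact_mod_cast congrArg (fun z : ℤ => (z : GaussianInt)) h5
    have h7 := hcong.mul_left (((t1 * q1 : ℤ) : GaussianInt))
    have h8 : ((t1 * q1 : ℤ) : GaussianInt) * (((t1 * q1 : ℤ) : GaussianInt) * (w ^ 4 * f ^ 2) +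
        ((t2 * q2 : ℤ) : GaussianInt) * (star w ^ 4 * star f ^ 2)) =
        w ^ 4 * f ^ 2 - ((-(t1 * q1 * (t2 * q2)) : ℤ) : GaussianInt) *
          (star w ^ 4 * star f ^ 2) := by
      have h9 : ((-(t1 * q1 * (t2 * q2)) : ℤ) : GaussianInt) =
          -(((t1 * q1 : ℤ) : GaussianInt) * ((t2 * q2 : ℤ) : GaussianInt)) := by
        push_cast
        ring
      rw [h9]
      linear_combination (w ^ 4 * f ^ 2) * h6
    rwa [h8] at h7

end Pool.H68.MS
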