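import Mathlib

/-!
# Divisors of natural numbers in the Gaussian integers
-/

set_option autoImplicit false

namespace Pool.H68.MS

open GaussianInt

/-- the units -/
def U : Finset GaussianInt := {⟨1, 0⟩, ⟨-1, 0⟩, ⟨0, 1⟩, ⟨0, -1⟩}

theorem unit_mem {u : GaussianInt} (hu : IsUnit u) : u ∈ U := by
  have h := Zsqrtd.norm_eq_one_iff.2 hu
  have h2 : u.norm = 1 := by
    have := Zsqrtd.norm_nonneg (by norm_num : (-1 : ℤ) ≤ 0) u
    omega
  rw [Zsqrtd.norm_def] at h2
  obtain ⟨a, b⟩ := u
  simp only at h2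
  have h3 : a ^ 2 + b ^ 2 = 1 := by linear_combination h2
  have ha : -1 ≤ a ∧ a ≤ 1 := abs_le.1 (abs_le_of_sq_le_sq (by nlinarith [sq_nonneg b]) (by norm_num))
  have hb : -1 ≤ b ∧ b ≤ 1 := abs_le.1 (abs_le_of_sq_le_sq (by nlinarith [sq_nonneg a]) (by norm_num))
  obtain ⟨ha1, ha2⟩ := ha
  obtain ⟨hb1, hb2⟩ := hb
  interval_cases a <;> interval_cases b <;> simp_all [U]

theorem U_card : U.card ≤ 4 := by
  unfold U
  exact Finset.card_le_four

theorem star_prime {π : GaussianInt} (h : Prime π) : Prime (star π) := by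
  refine ⟨fun h0 => h.ne_zero (by simpa using congrArg star h0), fun hu => h.not_isUnit ?_, ?_⟩
  · have := hu.star
    rwa [star_star] at this
  · intro a b hab
    have h1 : π ∣ star a * star b := by
      obtain ⟨c, hc⟩ := hab
      refine ⟨star c, ?_⟩
      have := congrArg star hc
      rw [StarMul.star_mul, StarMul.star_mul, star_star] at this
      rw [mul_comm, this, mul_comm]
    rcases h.dvd_or_dvd h1 with ⟨c, hc⟩ | ⟨c, hc⟩
    · left
      refine ⟨star c, ?_⟩
      have := congrArg star hc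
      rw [StarMul.star_mul, star_star] at this
      rw [this, mul_comm]
    · right
      refine ⟨star c, ?_⟩
      have := congrArg star hc
      rw [StarMul.star_mul, star_star] at this
      rw [this, mul_comm]

/-- a prime number is a prime or the norm of a prime -/
theorem split_prime {p : ℕ} (hp : p.Prime) : Prime (p : GaussianInt) ∨
    ∃ π : GaussianInt, Prime π ∧ (p : GaussianInt) = π * star π := by
  have hfact : Fact p.Prime := ⟨hp⟩
  by_cases h : Prime (p : GaussianInt)
  · exact Or.inl h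
  · right
    have h1 : ¬ Irreducible (p : GaussianInt) := fun hi => h hi.prime
    obtain ⟨a, b, hab⟩ := GaussianInt.sq_add_sq_of_nat_prime_of_not_irreducible p h1
    let π : GaussianInt := ⟨(a : ℤ), (b : ℤ)⟩
    have hn : π.norm = p := by
      rw [Zsqrtd.norm_def]
      have : ((a : ℤ)) ^ 2 + (b : ℤ) ^ 2 = p := by exact_mod_cast hab
      simp only [π]
      linarith [this, sq (a : ℤ), sq (b : ℤ)]
    have hpp : (p : GaussianInt) = π * star π := by
      rw [← Zsqrtd.norm_eq_mul_conj, hn]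
      simp
    refine ⟨π, ?_, hpp⟩
    apply Irreducible.prime
    refine ⟨fun hu => ?_, fun x y hxy => ?_⟩
    · have := Zsqrtd.norm_eq_one_iff.2 hu
      rw [hn] at this
      simp only [Int.natAbs_natCast] at this
      exact hp.one_lt.ne' this
    · have h2 : x.norm.natAbs * y.norm.natAbs = p := by
        have h3 : π.norm = x.norm * y.norm := by rw [hxy, Zsqrtd.norm_mul]
        have h4 := congrArg Int.natAbs h3
        rw [hn, Int.natAbs_mul, Int.natAbs_natCast] at h4
        exact h4.symm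
      rcases hp.eq_one_or_self_of_dvd _ (Dvd.intro _ h2) with h3 | h3
      · exact Or.inl (Zsqrtd.norm_eq_one_iff.1 h3)
      · right
        rw [h3] at h2
        apply Zsqrtd.norm_eq_one_iff.1
        have := hp.pos
        exact Nat.eq_of_mul_eq_mul_left this (by rw [h2, mul_one])

theorem div_pp {p : ℕ} (hp : p.Prime) (k : ℕ) : ∃ S : Finset GaussianInt,
    S.card ≤ 4 * (k + 1) ^ 2 ∧ ∀ β : GaussianInt, β ∣ ((p ^ k : ℕ) : GaussianInt) → β ∈ S := by
  classical
  rcases split_prime hp with h | ⟨π, hπ, hpp⟩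
  · refine ⟨(U ×ˢ Finset.range (k + 1)).image fun x => (p : GaussianInt) ^ x.2 * x.1, ?_, ?_⟩
    · refine Finset.card_image_le.trans ?_
      rw [Finset.card_product, Finset.card_range]
      have := U_card
      nlinarith
    · intro β hβ
      rw [Nat.cast_pow, dvd_prime_pow h] at hβ
      obtain ⟨i, hi, hass⟩ := hβ
      obtain ⟨u, hu⟩ := hass.symm
      rw [Finset.mem_image]
      exact ⟨(↑u, i), Finset.mem_product.2 ⟨unit_mem u.isUnit, Finset.mem_range.2 (by omega)⟩, hu⟩
  · have hπ' := star_prime hπ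
    refine ⟨(U ×ˢ (Finset.range (k + 1) ×ˢ Finset.range (k + 1))).image
      fun x => (π ^ x.2.1 * (star π) ^ x.2.2) * x.1, ?_, ?_⟩
    · refine Finset.card_image_le.trans ?_
      rw [Finset.card_product, Finset.card_product, Finset.card_range]
      have := U_card
      nlinarith [Nat.mul_le_mul_right ((k + 1) * (k + 1)) this]
    · intro β hβ
      rw [Nat.cast_pow, hpp, mul_pow] at hβ
      obtain ⟨a, b, ha, hb, rfl⟩ := exists_dvd_and_dvd_of_dvd_mul hβ
      rw [dvd_prime_pow hπ] at ha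
      rw [dvd_prime_pow hπ'] at hb
      obtain ⟨i, hi, h1⟩ := ha
      obtain ⟨j, hj, h2⟩ := hb
      obtain ⟨u, hu⟩ := h1.symm
      obtain ⟨v, hv⟩ := h2.symm
      rw [Finset.mem_image]
      refine ⟨(↑u * ↑v, i, j), Finset.mem_product.2 ⟨unit_mem (u.isUnit.mul v.isUnit),
        Finset.mem_product.2 ⟨Finset.mem_range.2 (Nat.lt_succ_of_le hi),
          Finset.mem_range.2 (Nat.lt_succ_of_le hj)⟩⟩, ?_⟩
      simp only
      rw [← hu, ← hv]
      ring

theorem div_aux (n : ℕ) : 1 < n → ∃ S : Finset GaussianInt,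
    S.card ≤ n.divisors.card ^ 4 ∧ ∀ β : GaussianInt, β ∣ (n : GaussianInt) → β ∈ S := by
  classical
  induction n using Nat.recOnPosPrimePosCoprime with
  | prime_pow p k hp hk =>
    intro _
    obtain ⟨S, h1, h2⟩ := div_pp hp k
    refine ⟨S, h1.trans ?_, h2⟩
    rw [Nat.divisors_prime_pow hp, Finset.card_map, Finset.card_range]
    have : 4 ≤ (k + 1) ^ 2 := by nlinarith
    calc 4 * (k + 1) ^ 2 ≤ (k + 1) ^ 2 * (k + 1) ^ 2 := Nat.mul_le_mul_right _ this
      _ = (k + 1) ^ 4 := by ring
  | zero => intro h; omega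
  | one => intro h; omega
  | coprime a b ha hb hab iha ihb =>
    intro _
    obtain ⟨S, h1, h2⟩ := iha ha
    obtain ⟨T, h3, h4⟩ := ihb hb
    refine ⟨(S ×ˢ T).image fun x => x.1 * x.2, ?_, ?_⟩
    · refine Finset.card_image_le.trans ?_
      rw [Finset.card_product, Nat.Coprime.card_divisors_mul hab, mul_pow]
      exact Nat.mul_le_mul h1 h3
    · intro β hβ
      rw [Nat.cast_mul] at hβ
      obtain ⟨x, y, hx, hy, rfl⟩ := exists_dvd_and_dvd_of_dvd_mul hβ
      rw [Finset.mem_image]
      exact ⟨(x, y), Finset.mem_product.2 ⟨h2 x hx, h4 y hy⟩, rfl⟩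

/-- the divisors of `n` in the Gaussian integers -/
theorem div_set (n : ℕ) (hn : 0 < n) : ∃ S : Finset GaussianInt,
    S.card ≤ 4 * n.divisors.card ^ 4 ∧ ∀ β : GaussianInt, β.norm = n → β ∈ S := by
  have hdiv : ∀ β : GaussianInt, β.norm = n → β ∣ (n : GaussianInt) := by
    intro β h
    refine ⟨star β, ?_⟩
    rw [← Zsqrtd.norm_eq_mul_conj, h]
    simp
  rcases Nat.lt_or_ge 1 n with h | h
  · obtain ⟨S, h1, h2⟩ := div_aux n h
    exact ⟨S, by omega, fun β hβ => h2 β (hdiv β hβ)⟩
  · obtain rfl : n = 1 := by omega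
    refine ⟨U, by simpa using U_card, fun β hβ => unit_mem ?_⟩
    have := hdiv β hβ
    rw [Nat.cast_one] at this
    exact isUnit_of_dvd_one this

end Pool.H68.MS
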