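import Pool.Agent.H68.MS.Ref

/-!
# The quartic form
-/

set_option autoImplicit false

namespace Pool.H68.MS

open Polynomial

theorem sq_three {w N : ℤ} (h : 4 * w ^ 2 = 3 * N ^ 2) : N = 0 := by
  by_contra hN
  have hN' : (N : ℝ) ≠ 0 := by exact_mod_cast hN
  have h1 : (4 * (w : ℝ) ^ 2) = 3 * (N : ℝ) ^ 2 := by exact_mod_cast h
  have h2 : (3 : ℝ) = (2 * (w : ℝ) / N) ^ 2 := by
    field_simp
    linarith
  have h3 : Real.sqrt 3 = |2 * (w : ℝ) / N| := by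
    conv_lhs => rw [h2]
    exact Real.sqrt_sq_eq_abs _
  have h4 : Irrational (Real.sqrt ((3 : ℕ) : ℝ)) := Nat.Prime.irrational_sqrt Nat.prime_three
  apply h4
  refine ⟨|2 * (w : ℚ) / N|, ?_⟩
  push_cast
  rw [h3]

/-- three vectors of the same length with sum zero -/
theorem three_zero {x0 y0 x1 y1 x2 y2 N : ℤ} (h0 : x0 ^ 2 + y0 ^ 2 = N) (h1 : x1 ^ 2 + y1 ^ 2 = N)
    (h2 : x2 ^ 2 + y2 ^ 2 = N) (hx : x0 + x1 + x2 = 0) (hy : y0 + y1 + y2 = 0) : N = 0 := by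
  have hx2 : x2 = -x0 - x1 := by linarith
  have hy2 : y2 = -y0 - y1 := by linarith
  rw [hx2, hy2] at h2
  have h3 : 2 * (x0 * x1 + y0 * y1) = -N := by linear_combination h2 - h0 - h1
  apply sq_three (w := x0 * y1 - x1 * y0)
  linear_combination 4 * (x1 ^ 2 + y1 ^ 2) * h0 + 4 * N * h1 -
    (2 * (x0 * x1 + y0 * y1) - N) * h3

theorem coef (a b c d e : ℚ) :
    (C a * X ^ 4 + C b * X ^ 3 + C c * X ^ 2 + C d * X + C e : ℚ[X]).coeff 4 = a ∧
    (C a * X ^ 4 + C b * X ^ 3 + C c * X ^ 2 + C d * X + C e : ℚ[X]).coeff 3 = b ∧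
    (C a * X ^ 4 + C b * X ^ 3 + C c * X ^ 2 + C d * X + C e : ℚ[X]).coeff 2 = c := by
  refine ⟨?_, ?_, ?_⟩ <;> simp

/-- a nonzero form has few coprime zeros -/
theorem zeros (α β ζ : ℤ) (h : ¬ (α = 0 ∧ β = 0 ∧ ζ = 0)) : ∃ S : Finset (ℤ × ℤ), S.card ≤ 10 ∧
    ∀ r s : ℤ, IsCoprime r s → α * (r ^ 4 - 6 * r ^ 2 * s ^ 2 + s ^ 4) +
      β * (4 * r ^ 3 * s - 4 * r * s ^ 3) + ζ * (r ^ 2 + s ^ 2) ^ 2 = 0 → (r, s) ∈ S := by
  classical
  set P : ℚ[X] := C ((α : ℚ) + ζ) * X ^ 4 + C (4 * (β : ℚ)) * X ^ 3 + C (-6 * (α : ℚ) + 2 * ζ) * X ^ 2 +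
    C (-4 * (β : ℚ)) * X + C ((α : ℚ) + ζ) with hP
  obtain ⟨hc4, hc3, hc2⟩ := coef ((α : ℚ) + ζ) (4 * (β : ℚ)) (-6 * (α : ℚ) + 2 * ζ)
    (-4 * (β : ℚ)) ((α : ℚ) + ζ)
  rw [← hP] at hc4 hc3 hc2
  have hP0 : P ≠ 0 := by
    intro h0
    rw [h0, coeff_zero] at hc4 hc3 hc2
    apply h
    have h1 : (α : ℚ) = 0 := by linarith
    have h2 : (β : ℚ) = 0 := by linarith
    have h3 : (ζ : ℚ) = 0 := by linarith
    exact ⟨by exact_mod_cast h1, by exact_mod_cast h2, by exact_mod_cast h3⟩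
  have hdeg : P.natDegree ≤ 4 := by
    rw [hP]
    compute_degree
  have hcard : P.roots.toFinset.card ≤ 4 :=
    (Multiset.toFinset_card_le _).trans ((card_roots' P).trans hdeg)
  refine ⟨{(1, 0), (-1, 0)} ∪ (P.roots.toFinset.image (fun q : ℚ => (q.num, (q.den : ℤ))) ∪
    P.roots.toFinset.image (fun q : ℚ => (-q.num, -(q.den : ℤ)))), ?_, ?_⟩
  · refine (Finset.card_union_le _ _).trans ?_
    have h1 : ({(1, 0), (-1, 0)} : Finset (ℤ × ℤ)).card ≤ 2 := Finset.card_le_two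
    have h2 := Finset.card_union_le (P.roots.toFinset.image (fun q : ℚ => (q.num, (q.den : ℤ))))
      (P.roots.toFinset.image (fun q : ℚ => (-q.num, -(q.den : ℤ))))
    have h3 := Finset.card_image_le (s := P.roots.toFinset) (f := fun q : ℚ => (q.num, (q.den : ℤ)))
    have h4 := Finset.card_image_le (s := P.roots.toFinset)
      (f := fun q : ℚ => (-q.num, -(q.den : ℤ)))
    omega
  · intro r s hrs hf
    rw [Finset.mem_union, Finset.mem_union]
    by_cases hs : s = 0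
    · left
      subst hs
      have h1 := isCoprime_zero_right.1 hrs
      rcases Int.isUnit_iff.1 h1 with h2 | h2 <;> rw [h2] <;> simp
    · right
      have hs' : (s : ℚ) ≠ 0 := by exact_mod_cast hs
      have hroot : ((r : ℚ) / s) ∈ P.roots.toFinset := by
        rw [Multiset.mem_toFinset, mem_roots hP0, IsRoot.def, hP]
        simp only [eval_add, eval_mul, eval_C, eval_pow, eval_X]
        have hf' : (α : ℚ) * (r ^ 4 - 6 * r ^ 2 * s ^ 2 + s ^ 4) +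
            β * (4 * r ^ 3 * s - 4 * r * s ^ 3) + ζ * (r ^ 2 + s ^ 2) ^ 2 = 0 := by
          exact_mod_cast hf
        field_simp
        linear_combination hf'
      rcases lt_or_gt_of_ne hs with hneg | hpos
      · right
        rw [Finset.mem_image]
        have e : (r : ℚ) / s = ((-r : ℤ) : ℚ) / ((-s : ℤ) : ℚ) := by
          push_cast
          rw [neg_div_neg_eq]
        have hc : Nat.Coprime (-r).natAbs (-s).natAbs := by
          rw [Int.natAbs_neg, Int.natAbs_neg]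
          exact Int.isCoprime_iff_gcd_eq_one.1 hrs
        refine ⟨(r : ℚ) / s, hroot, ?_⟩
        have h1 := Rat.num_div_eq_of_coprime (a := -r) (b := -s) (by omega) hc
        have h2 := Rat.den_div_eq_of_coprime (a := -r) (b := -s) (by omega) hc
        rw [e, h1, h2]
        simp
      · left
        rw [Finset.mem_image]
        have hc : Nat.Coprime r.natAbs s.natAbs := Int.isCoprime_iff_gcd_eq_one.1 hrs
        refine ⟨(r : ℚ) / s, hroot, ?_⟩
        have h1 := Rat.num_div_eq_of_coprime (a := r) (b := s) hpos hc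
        have h2 := Rat.den_div_eq_of_coprime (a := r) (b := s) hpos hc
        rw [h1, h2]

/-- the three numbers with cell `γ` and cofactors `δ` -/
def bet (i : Fin 10) (δ : Fin 3 → GaussianInt) (γ : GaussianInt) (j : Fin 3) : GaussianInt :=
  γ ^ (pat i j) * (star γ) ^ (2 - pat i j) * δ j

/-- the coefficients -/
def cX (a : ℕ) : ℤ := if a = 1 then 0 else 1
/-- the coefficients -/
def cY (a : ℕ) : ℤ := if a = 2 then 1 else if a = 0 then -1 else 0
/-- the coefficients -/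
def cZ (a : ℕ) : ℤ := if a = 1 then 1 else 0

theorem im_sq (γ δ : GaussianInt) (a : ℕ) (ha : a ≤ 2) :
    ((γ ^ a * (star γ) ^ (2 - a) * δ) ^ 2).im =
      cX a * (δ ^ 2).im * (γ.re ^ 4 - 6 * γ.re ^ 2 * γ.im ^ 2 + γ.im ^ 4) +
      cY a * (δ ^ 2).re * (4 * γ.re ^ 3 * γ.im - 4 * γ.re * γ.im ^ 3) +
      cZ a * (δ ^ 2).im * (γ.re ^ 2 + γ.im ^ 2) ^ 2 := by
  obtain ⟨r, s⟩ := γ
  obtain ⟨c, d⟩ := δ
  interval_cases a <;> simp [cX, cY, cZ, pow_two] <;> ring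

theorem norm_sq' (δ : GaussianInt) : (δ ^ 2).re ^ 2 + (δ ^ 2).im ^ 2 = δ.norm ^ 2 := by
  rw [Zsqrtd.norm_def]
  obtain ⟨c, d⟩ := δ
  simp [pow_two]
  ring

/-- for given pattern and cofactors there are at most ten cells -/
theorem few_cells (i : Fin 10) (δ : Fin 3 → GaussianInt) (Q : ℕ) (hQ : 0 < Q)
    (hδ : ∀ j, (δ j).norm = (Q : ℤ) ^ 2) : ∃ S : Finset GaussianInt, S.card ≤ 10 ∧
    ∀ γ : GaussianInt, IsCoprime γ.re γ.im →
      (bet i δ γ 0 ^ 2).im + (bet i δ γ 1 ^ 2).im = (bet i δ γ 2 ^ 2).im →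
      (∀ j, (bet i δ γ j ^ 2).im ≠ 0) → γ ∈ S := by
  classical
  set α : ℤ := cX (pat i 0) * (δ 0 ^ 2).im + cX (pat i 1) * (δ 1 ^ 2).im -
    cX (pat i 2) * (δ 2 ^ 2).im with hα
  set β : ℤ := cY (pat i 0) * (δ 0 ^ 2).re + cY (pat i 1) * (δ 1 ^ 2).re -
    cY (pat i 2) * (δ 2 ^ 2).re with hβ
  set ζ : ℤ := cZ (pat i 0) * (δ 0 ^ 2).im + cZ (pat i 1) * (δ 1 ^ 2).im -
    cZ (pat i 2) * (δ 2 ^ 2).im with hζ
  by_cases h : α = 0 ∧ β = 0 ∧ ζ = 0
  · refine ⟨∅, by simp, fun γ _ _ hne => ?_⟩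
    exfalso
    have h1 : cX (pat i 0) * (δ 0 ^ 2).im + cX (pat i 1) * (δ 1 ^ 2).im -
      cX (pat i 2) * (δ 2 ^ 2).im = 0 := h.1
    have h2 : cY (pat i 0) * (δ 0 ^ 2).re + cY (pat i 1) * (δ 1 ^ 2).re -
      cY (pat i 2) * (δ 2 ^ 2).re = 0 := h.2.1
    have h3 : cZ (pat i 0) * (δ 0 ^ 2).im + cZ (pat i 1) * (δ 1 ^ 2).im -
      cZ (pat i 2) * (δ 2 ^ 2).im = 0 := h.2.2
    clear_value α β ζ
    have hN : ∀ j, (δ j ^ 2).re ^ 2 + (δ j ^ 2).im ^ 2 = (Q : ℤ) ^ 4 := by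
      intro j
      rw [norm_sq', hδ j]
      ring
    have hQ4 : (Q : ℤ) ^ 4 ≠ 0 := by positivity
    have him : ∀ j, pat i j = 1 → (δ j ^ 2).im ≠ 0 := by
      intro j hj h0
      apply hne j
      unfold bet
      rw [im_sq _ _ _ (pat_le i j), hj, h0]
      simp [cX, cY, cZ]
    fin_cases i
    · simp [pat, cX, cY, cZ] at h1 h2 h3
      exact hQ4 (three_zero (hN 0) (hN 1) (x2 := -(δ 2 ^ 2).re) (y2 := -(δ 2 ^ 2).im)
        (by rw [← hN 2]; ring) (by linarith) (by linarith))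
    · simp [pat, cX, cY, cZ] at h1 h2 h3
      exact hQ4 (three_zero (hN 0) (hN 1) (x2 := (δ 2 ^ 2).re) (y2 := -(δ 2 ^ 2).im)
        (by rw [← hN 2]; ring) (by linarith) (by linarith))
    · simp [pat, cX, cY, cZ] at h1 h2 h3
      exact hQ4 (three_zero (hN 0) (x1 := -(δ 1 ^ 2).re) (y1 := (δ 1 ^ 2).im)
        (x2 := -(δ 2 ^ 2).re) (y2 := -(δ 2 ^ 2).im)
        (by rw [← hN 1]; ring) (by rw [← hN 2]; ring) (by linarith) (by linarith))
    · simp [pat, cX, cY, cZ] at h1 h2 h3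
      exact hQ4 (three_zero (hN 0) (x1 := -(δ 1 ^ 2).re) (y1 := (δ 1 ^ 2).im)
        (x2 := (δ 2 ^ 2).re) (y2 := -(δ 2 ^ 2).im)
        (by rw [← hN 1]; ring) (by rw [← hN 2]; ring) (by linarith) (by linarith))
    · simp [pat, cZ] at h3
      exact him 0 (by decide) (by simpa using h3)
    · simp [pat, cZ] at h3
      exact him 0 (by decide) (by simpa using h3)
    · simp [pat, cZ] at h3
      exact him 1 (by decide) (by simpa using h3)
    · simp [pat, cZ] at h3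
      exact him 1 (by decide) (by simpa using h3)
    · simp [pat, cZ] at h3
      exact him 2 (by decide) (by simpa using h3)
    · simp [pat, cZ] at h3
      exact him 2 (by decide) (by simpa using h3)
  · obtain ⟨S, hS1, hS2⟩ := zeros α β ζ h
    refine ⟨S.image fun x => (⟨x.1, x.2⟩ : GaussianInt), Finset.card_image_le.trans hS1, ?_⟩
    intro γ hco hrel _
    rw [Finset.mem_image]
    refine ⟨(γ.re, γ.im), hS2 _ _ hco ?_, rfl⟩
    unfold bet at hrel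
    rw [im_sq _ _ _ (pat_le i 0), im_sq _ _ _ (pat_le i 1), im_sq _ _ _ (pat_le i 2)] at hrel
    rw [hα, hβ, hζ]
    linear_combination hrel

end Pool.H68.MS
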