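import Pool.Agent.H68.MS.Div

/-!
# Points of a union of few lattices in a shell

Proof. `N = n`. Fix a solution `x0` (if there is none take `S = ∅`); for a solution `x` put
`y = x * star x0`, `y' = star x * x0 = star y`. From the two congruences
`a * b * (y ^ 4 - (star y) ^ 4)` is divisible by `(star g) ^ 2`, so (coprimality)
`(star g) ^ 2 ∣ (y - star y) * (y + star y) * (y - I * star y) * (y + I * star y)` and
`exists_dvd_and_dvd_of_dvd_mul` gives `(star g) ^ 2 = d1 * d2 * d3 * d4`, `dk ∣` the `k`-th factor.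
The CLASS of `x` is `(d1, d2, d3, d4)`. The `dk` are pairwise coprime. For `x`, `z` in one class
every `dk` divides `x0.norm * (x * star z - star x * z)`, hence `(n : ℤ) ^ 2 ∣ (x * star z).im`.
Fix `e` in the class: `t = (x * star e).im` is a multiple of `n ^ 2` with `|t| < 2 X`. If `x`, `z`
have the same `t`, then `x - z = s * e` with an integer `s`, `|s| ≤ 2`.
-/

set_option autoImplicit false

namespace Pool.H68.MS

private theorem star_isCoprime {a b : GaussianInt} (h : IsCoprime a b) :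
    IsCoprime (star a) (star b) := by
  obtain ⟨u, v, huv⟩ := h
  refine ⟨star u, star v, ?_⟩
  have h1 := congrArg star huv
  rw [star_add, StarMul.star_mul, StarMul.star_mul, star_one] at h1
  rw [mul_comm (star u), mul_comm (star v)]
  exact h1

private theorem cop_two (g : GaussianInt) (hg : IsCoprime g (star g)) :
    IsCoprime (star g) 2 := by
  obtain ⟨u, v, huv⟩ := hg
  have hre := congrArg Zsqrtd.re huv
  have him := congrArg Zsqrtd.im huv
  simp only [Zsqrtd.re_add, Zsqrtd.im_add, Zsqrtd.re_mul, Zsqrtd.im_mul, Zsqrtd.re_star,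
    Zsqrtd.im_star, Zsqrtd.re_one, Zsqrtd.im_one] at hre him
  have hodd : ¬ (2 : ℤ) ∣ g.re + g.im := by
    rintro ⟨t, ht⟩
    have h2 : (u.re + v.im) * (g.re + g.im) + (u.im + v.re) * (g.re - g.im) = 1 := by
      linear_combination hre + him
    rw [ht] at h2
    have h3 : g.re - g.im = 2 * (t - g.im) := by linarith
    rw [h3] at h2
    have h4 : 2 * ((u.re + v.im) * t + (u.im + v.re) * (t - g.im)) = 1 := by
      linear_combination h2
    omega
  have hnorm : g.norm % 2 = 1 := by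
    rw [Zsqrtd.norm_def]
    have h1 : (g.re + g.im) % 2 = 1 := by omega
    have h2 : g.re * g.re - -1 * g.im * g.im = (g.re + g.im) * (g.re + g.im) - 2 * (g.re * g.im) := by
      ring
    rw [h2]
    have h3 : ((g.re + g.im) * (g.re + g.im)) % 2 = 1 := by
      rw [Int.mul_emod, h1]
      norm_num
    omega
  obtain ⟨k, hk⟩ : ∃ k : ℤ, g.norm = 2 * k + 1 := ⟨g.norm / 2, by omega⟩
  refine ⟨g, -(k : GaussianInt), ?_⟩
  have h5 := Zsqrtd.norm_eq_mul_conj g
  rw [hk] at h5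
  push_cast at h5
  linear_combination -h5

private theorem cop_pair {d e y y' ζ ξ c : GaussianInt} (hd : d ∣ y - ζ * y') (he : e ∣ y - ξ * y')
    (hc : c * (ξ - ζ) = 2) (hH : IsCoprime d (2 * y')) : IsCoprime d e := by
  obtain ⟨p, hp⟩ := hd
  obtain ⟨q, hq⟩ := he
  obtain ⟨u, v, huv⟩ := hH
  refine ⟨u + v * c * p, -(v * c * q), ?_⟩
  linear_combination huv - v * c * hp + v * c * hq + v * y' * hc

private theorem dvd_pair {d y y' z z' ζ : GaussianInt} (hy : d ∣ y - ζ * y')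
    (hz : d ∣ z - ζ * z') : d ∣ y * z' - y' * z := by
  have h : y * z' - y' * z = (y - ζ * y') * z' - y' * (z - ζ * z') := by ring
  rw [h]
  exact dvd_sub (hy.mul_right _) (hz.mul_left _)

/-- the class of a point -/
private def Cls (g x0 x d1 d2 d3 d4 : GaussianInt) : Prop :=
  d1 * d2 * d3 * d4 = (star g) ^ 2 ∧
  d1 ∣ x * star x0 - 1 * (star x * x0) ∧ d2 ∣ x * star x0 - (-1) * (star x * x0) ∧
  d3 ∣ x * star x0 - ⟨0, 1⟩ * (star x * x0) ∧ d4 ∣ x * star x0 - ⟨0, -1⟩ * (star x * x0)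

private theorem exists_cls (g a b x0 x : GaussianInt) (ha : IsCoprime a (star g))
    (hb : IsCoprime b (star g)) (h0 : (star g) ^ 2 ∣ a * x0 ^ 4 - b * (star x0) ^ 4)
    (h : (star g) ^ 2 ∣ a * x ^ 4 - b * (star x) ^ 4) :
    ∃ d1 d2 d3 d4 : GaussianInt, Cls g x0 x d1 d2 d3 d4 := by
  have h1 : (star g) ^ 2 ∣ (a * b) * ((x * star x0) ^ 4 - (star x * x0) ^ 4) := by
    have h2 : (a * b) * ((x * star x0) ^ 4 - (star x * x0) ^ 4) =
        (a * x ^ 4 - b * (star x) ^ 4) * (b * (star x0) ^ 4) -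
        (b * (star x) ^ 4) * (a * x0 ^ 4 - b * (star x0) ^ 4) := by ring
    rw [h2]
    exact dvd_sub (h.mul_right _) (h0.mul_left _)
  have hcop : IsCoprime ((star g) ^ 2) (a * b) :=
    ((ha.mul_left hb).pow_right (n := 2)).symm
  have h3 := hcop.dvd_of_dvd_mul_left h1
  have hI : (⟨0, 1⟩ : GaussianInt) * ⟨0, 1⟩ = -1 := by
    ext <;> simp
  have hI' : (⟨0, -1⟩ : GaussianInt) = - ⟨0, 1⟩ := by
    ext <;> simp
  set y := x * star x0 with hy
  set y' := star x * x0 with hy'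
  have h4 : y ^ 4 - y' ^ 4 = (((y - 1 * y') * (y - (-1) * y')) * (y - ⟨0, 1⟩ * y')) *
      (y - ⟨0, -1⟩ * y') := by
    rw [hI']
    linear_combination (y' ^ 2 * (y ^ 2 - y' ^ 2)) * hI
  rw [h4] at h3
  obtain ⟨e3, d4, he3, hd4, h5⟩ := exists_dvd_and_dvd_of_dvd_mul h3
  obtain ⟨e2, d3, he2, hd3, h6⟩ := exists_dvd_and_dvd_of_dvd_mul he3
  obtain ⟨d1, d2, hd1, hd2, h7⟩ := exists_dvd_and_dvd_of_dvd_mul he2
  refine ⟨d1, d2, d3, d4, ?_, hd1, hd2, hd3, hd4⟩
  rw [h5, h6, h7]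

private theorem cls_im (g : GaussianInt) (hg : IsCoprime g (star g)) (n : ℕ) (hn : g.norm = n)
    (x0 x z d1 d2 d3 d4 : GaussianInt) (hx0 : IsCoprime x0 (star g))
    (hx0' : IsCoprime (star x0) (star g)) (hx : IsCoprime (star x) (star g))
    (h1 : Cls g x0 x d1 d2 d3 d4) (h2 : Cls g x0 z d1 d2 d3 d4) :
    ((n : ℤ)) ^ 2 ∣ (x * star z).im := by
  obtain ⟨hp, a1, a2, a3, a4⟩ := h1
  obtain ⟨_, b1, b2, b3, b4⟩ := h2
  have h2c := cop_two g hg
  set y := x * star x0 with hy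
  set y' := star x * x0 with hy'
  -- coprimality with `star g`
  have hc2y : IsCoprime ((star g) ^ 2) (2 * y') :=
    (h2c.mul_right ((hx.mul_left hx0).symm)).pow_left
  have hN : IsCoprime ((star g) ^ 2) (x0 * star x0) :=
    ((hx0.mul_left hx0').symm).pow_left
  have e1 : d1 ∣ (star g) ^ 2 := ⟨d2 * d3 * d4, by rw [← hp]; ring⟩
  have e2 : d2 ∣ (star g) ^ 2 := ⟨d1 * d3 * d4, by rw [← hp]; ring⟩
  have e3 : d3 ∣ (star g) ^ 2 := ⟨d1 * d2 * d4, by rw [← hp]; ring⟩
  have e4 : d4 ∣ (star g) ^ 2 := ⟨d1 * d2 * d3, by rw [← hp]; ring⟩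
  have c1 := hc2y.of_isCoprime_of_dvd_left e1
  have c2 := hc2y.of_isCoprime_of_dvd_left e2
  have c3 := hc2y.of_isCoprime_of_dvd_left e3
  have c12 : IsCoprime d1 d2 := cop_pair (c := -1) a1 a2 (by norm_num) c1
  have c13 : IsCoprime d1 d3 := cop_pair (c := ⟨-1, -1⟩) a1 a3 (by ext <;> simp) c1
  have c14 : IsCoprime d1 d4 := cop_pair (c := ⟨-1, 1⟩) a1 a4 (by ext <;> simp) c1
  have c23 : IsCoprime d2 d3 := cop_pair (c := ⟨1, -1⟩) a2 a3 (by ext <;> simp) c2
  have c24 : IsCoprime d2 d4 := cop_pair (c := ⟨1, 1⟩) a2 a4 (by ext <;> simp) c2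
  have c34 : IsCoprime d3 d4 := cop_pair (c := ⟨0, 1⟩) a3 a4 (by ext <;> simp) c3
  -- every `dk` divides `w`
  set w := x * star z - star x * z with hw
  have hyz : y * (star z * x0) - y' * (z * star x0) = (x0 * star x0) * w := by
    rw [hy, hy', hw]
    ring
  have w1 : d1 ∣ w := by
    have := dvd_pair a1 b1
    rw [hyz] at this
    exact (hN.of_isCoprime_of_dvd_left e1).dvd_of_dvd_mul_left this
  have w2 : d2 ∣ w := by
    have := dvd_pair a2 b2
    rw [hyz] at this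
    exact (hN.of_isCoprime_of_dvd_left e2).dvd_of_dvd_mul_left this
  have w3 : d3 ∣ w := by
    have := dvd_pair a3 b3
    rw [hyz] at this
    exact (hN.of_isCoprime_of_dvd_left e3).dvd_of_dvd_mul_left this
  have w4 : d4 ∣ w := by
    have := dvd_pair a4 b4
    rw [hyz] at this
    exact (hN.of_isCoprime_of_dvd_left e4).dvd_of_dvd_mul_left this
  have w12 : d1 * d2 ∣ w := c12.mul_dvd w1 w2
  have w123 : d1 * d2 * d3 ∣ w := (c13.mul_left c23).mul_dvd w12 w3
  have w1234 : d1 * d2 * d3 * d4 ∣ w := ((c14.mul_left c24).mul_left c34).mul_dvd w123 w4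
  rw [hp] at w1234
  set m : ℤ := (x * star z).im with hm
  have hwm : w = (2 * ⟨0, 1⟩) * (m : GaussianInt) := by
    rw [hw, hm]
    ext
    · simp
    · simp
      ring
  have hm1 : (star g) ^ 2 ∣ (m : GaussianInt) := by
    rw [hwm] at w1234
    refine (IsCoprime.dvd_of_dvd_mul_left ?_ w1234)
    refine (h2c.mul_right ?_).pow_left
    exact ⟨0, ⟨0, -1⟩, by ext <;> simp⟩
  have hm2 : g ^ 2 ∣ (m : GaussianInt) := by
    obtain ⟨c, hc⟩ := hm1
    refine ⟨star c, ?_⟩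
    have h5 := congrArg star hc
    rw [StarMul.star_mul, star_pow, star_star, mul_comm] at h5
    rw [← h5]
    ext <;> simp
  have hm3 : ((n : ℤ) : GaussianInt) ^ 2 ∣ (m : GaussianInt) := by
    have h6 : ((n : ℤ) : GaussianInt) = g * star g := by
      rw [← hn]
      exact Zsqrtd.norm_eq_mul_conj g
    rw [h6, mul_pow]
    exact (hg.pow (m := 2) (n := 2)).mul_dvd hm2 hm1
  have hm4 : (((n : ℤ) ^ 2 : ℤ) : GaussianInt) ∣ (m : GaussianInt) := by
    rw [Int.cast_pow]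
    exact hm3
  exact (Zsqrtd.intCast_dvd_intCast _ _).1 hm4

private theorem div_all (n : ℕ) (hn : 0 < n) : ∃ S : Finset GaussianInt,
    S.card ≤ 4 * n.divisors.card ^ 4 ∧ ∀ β : GaussianInt, β ∣ (n : GaussianInt) → β ∈ S := by
  rcases Nat.lt_or_ge 1 n with h | h
  · obtain ⟨S, h1, h2⟩ := div_aux n h
    exact ⟨S, by omega, h2⟩
  · obtain rfl : n = 1 := by omega
    refine ⟨U, by simpa using U_card, fun β hβ => unit_mem ?_⟩
    rw [Nat.cast_one] at hβ
    exact isUnit_of_dvd_one hβ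

private theorem norm_eq (x : GaussianInt) : x.norm = x.re ^ 2 + x.im ^ 2 := by
  rw [Zsqrtd.norm_def]
  ring

/-- two points with the same height over `e` -/
private theorem five (e x z : GaussianInt) (he : IsCoprime e.re e.im) (X : ℕ) (hX : 0 < X)
    (heX : (X : ℤ) ≤ e.norm) (hx : x.norm < 2 * X) (hz : z.norm < 2 * X)
    (h : (x * star e).im = (z * star e).im) :
    ∃ s ∈ Finset.Icc (-2 : ℤ) 2, x = z + s * e := by
  obtain ⟨u, v, huv⟩ := he
  simp only [Zsqrtd.im_mul, Zsqrtd.re_star, Zsqrtd.im_star] at h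
  set p : ℤ := x.re - z.re with hp
  set q : ℤ := x.im - z.im with hq
  have hpq : q * e.re = p * e.im := by
    rw [hp, hq]
    linear_combination h
  have h1 : p = e.re * (u * p + v * q) := by
    linear_combination (-p) * huv - v * hpq
  have h2 : q = e.im * (u * p + v * q) := by
    linear_combination (-q) * huv + u * hpq
  set s : ℤ := u * p + v * q with hs
  rw [norm_eq] at heX hx hz
  have h3 : p ^ 2 + q ^ 2 ≤ 2 * ((x.re ^ 2 + x.im ^ 2) + (z.re ^ 2 + z.im ^ 2)) := by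
    rw [hp, hq]
    nlinarith [sq_nonneg (x.re + z.re), sq_nonneg (x.im + z.im)]
  have h4 : p ^ 2 + q ^ 2 = s ^ 2 * (e.re ^ 2 + e.im ^ 2) := by
    rw [h1, h2]
    ring
  have hX' : (0 : ℤ) < X := by exact_mod_cast hX
  have h5 : s ^ 2 < 8 := by
    by_contra hcon
    have h6 : 8 ≤ s ^ 2 := not_lt.1 hcon
    nlinarith
  have h6 : -2 ≤ s ∧ s ≤ 2 := by
    constructor <;> nlinarith
  refine ⟨s, Finset.mem_Icc.2 h6, ?_⟩
  apply Zsqrtd.ext
  · simp
    linarith
  · simp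
    linarith

private theorem im_lt (x e : GaussianInt) (X : ℕ) (hx : x.norm < 2 * X) (he : e.norm < 2 * X) :
    |(x * star e).im| < 2 * (X : ℤ) := by
  have h1 : ((x * star e).re) ^ 2 + ((x * star e).im) ^ 2 = x.norm * e.norm := by
    rw [← norm_eq, Zsqrtd.norm_mul, Zsqrtd.norm_conj]
  have h2 : 0 ≤ x.norm := by
    rw [norm_eq]
    positivity
  have h3 : 0 ≤ e.norm := by
    rw [norm_eq]
    positivity
  have h4 : ((x * star e).im) ^ 2 < (2 * (X : ℤ)) ^ 2 := by
    nlinarith [sq_nonneg (x * star e).re]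
  exact abs_lt_of_sq_lt_sq h4 (by positivity)

/-- one class -/
private theorem one_class (e : GaussianInt) (he : IsCoprime e.re e.im) (n X : ℕ) (hX : 0 < X)
    (hn : 0 < n) (heX : (X : ℤ) ≤ e.norm) (heX' : e.norm < 2 * X) (A : Finset GaussianInt)
    (hA : ∀ x ∈ A, x.norm < 2 * X ∧ ((n : ℤ)) ^ 2 ∣ (x * star e).im) :
    A.card * n ^ 2 ≤ 5 * (4 * X + n ^ 2) := by
  classical
  set J : ℤ := (2 * X : ℤ) / (n : ℤ) ^ 2 with hJ
  have hn' : (0 : ℤ) < (n : ℤ) ^ 2 := by positivity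
  have hJ0 : 0 ≤ J := Int.ediv_nonneg (by positivity) hn'.le
  have h1 : A.card ≤ 5 * (Finset.Icc (-J) J).card := by
    refine Finset.card_le_mul_card_image_of_maps_to
      (f := fun x : GaussianInt => (x * star e).im / (n : ℤ) ^ 2) ?_ 5 ?_
    · intro x hx
      obtain ⟨hx1, c, hc⟩ := hA x hx
      have h2 := im_lt x e X hx1 heX'
      rw [hc, abs_lt] at h2
      rw [hc, Int.mul_ediv_cancel_left _ hn'.ne', Finset.mem_Icc]
      constructor
      · have h3 : -c ≤ J := by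
          rw [hJ, Int.le_ediv_iff_mul_le hn']
          nlinarith [h2.1]
        linarith
      · rw [hJ, Int.le_ediv_iff_mul_le hn']
        nlinarith [h2.2]
    · intro j _
      rcases (A.filter (fun x : GaussianInt => (x * star e).im / (n : ℤ) ^ 2 = j)).eq_empty_or_nonempty
        with h2 | ⟨z, hz⟩
      · rw [h2]
        simp
      · rw [Finset.mem_filter] at hz
        obtain ⟨hzA, hzj⟩ := hz
        have h3 : A.filter (fun x : GaussianInt => (x * star e).im / (n : ℤ) ^ 2 = j) ⊆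
            (Finset.Icc (-2 : ℤ) 2).image (fun s : ℤ => z + s * e) := by
          intro x hx
          rw [Finset.mem_filter] at hx
          obtain ⟨hxA, hxj⟩ := hx
          obtain ⟨hx1, c, hc⟩ := hA x hxA
          obtain ⟨hz1, c', hc'⟩ := hA z hzA
          have h4 : (x * star e).im = (z * star e).im := by
            rw [hc, Int.mul_ediv_cancel_left _ hn'.ne'] at hxj
            rw [hc', Int.mul_ediv_cancel_left _ hn'.ne'] at hzj
            rw [hc, hc', hxj, hzj]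
          obtain ⟨s, hs, rfl⟩ := five e x z he X hX heX hx1 hz1 h4
          exact Finset.mem_image.2 ⟨s, hs, rfl⟩
        exact (Finset.card_le_card h3).trans (Finset.card_image_le.trans (by simp))
  rw [Int.card_Icc] at h1
  have h2 : ((J + 1 - -J).toNat : ℤ) = 2 * J + 1 := by
    rw [Int.toNat_of_nonneg (by linarith)]
    ring
  have h3 : J * (n : ℤ) ^ 2 ≤ 2 * X := Int.ediv_mul_le _ hn'.ne'
  have h4 : ((A.card * n ^ 2 : ℕ) : ℤ) ≤ ((5 * (4 * X + n ^ 2) : ℕ) : ℤ) := by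
    have h5 : ((A.card : ℕ) : ℤ) ≤ 5 * (2 * J + 1) := by
      rw [← h2]
      exact_mod_cast h1
    push_cast
    nlinarith
  exact_mod_cast h4

private theorem pigeon' {α β : Type*} [DecidableEq β] (A : Finset α) (B : Finset β) (f : α → β)
    (hf : ∀ a ∈ A, f a ∈ B) (hB : B.Nonempty) :
    ∃ b ∈ B, A.card ≤ (A.filter (fun a => f a = b)).card * B.card := by
  obtain ⟨b, hb, hmax⟩ :=
    Finset.exists_max_image B (fun b => (A.filter (fun a => f a = b)).card) hB
  exact ⟨b, hb, Finset.card_le_mul_card_image_of_maps_to hf _ hmax⟩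

theorem lat4 (g : GaussianInt) (hg : IsCoprime g (star g)) (n : ℕ) (hn : g.norm = n)
    (a b : GaussianInt) (ha : IsCoprime a (star g)) (hb : IsCoprime b (star g)) (X : ℕ)
    (hX : 0 < X) :
    ∃ S : Finset GaussianInt,
      S.card * n ^ 2 ≤ 5 * (4 * (n ^ 2).divisors.card ^ 4) ^ 4 * (4 * X + n ^ 2) ∧
      ∀ x : GaussianInt, IsCoprime x.re x.im → IsCoprime x (star g) → IsCoprime (star x) (star g) →
        (X : ℤ) ≤ x.norm → x.norm < 2 * X → (star g) ^ 2 ∣ a * x ^ 4 - b * (star x) ^ 4 →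
        x ∈ S := by
  classical
  have hn0 : 0 < n := by
    rcases Nat.eq_zero_or_pos n with h | h
    · exfalso
      rw [h, Nat.cast_zero] at hn
      have h1 : g = 0 := GaussianInt.norm_eq_zero.1 hn
      rw [h1, star_zero] at hg
      exact not_isCoprime_zero_zero hg
    · exact h
  obtain ⟨D, hD1, hD2⟩ := div_all (n ^ 2) (by positivity)
  -- the solutions
  let Sol : GaussianInt → Prop := fun x => IsCoprime x.re x.im ∧ IsCoprime x (star g) ∧
    IsCoprime (star x) (star g) ∧ (X : ℤ) ≤ x.norm ∧ x.norm < 2 * X ∧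
    (star g) ^ 2 ∣ a * x ^ 4 - b * (star x) ^ 4
  let box : Finset GaussianInt := (Finset.Icc (-(2 * X : ℤ)) (2 * X) ×ˢ
    Finset.Icc (-(2 * X : ℤ)) (2 * X)).image (fun p : ℤ × ℤ => (⟨p.1, p.2⟩ : GaussianInt))
  set T : Finset GaussianInt := box.filter Sol with hT
  have hmem : ∀ x : GaussianInt, Sol x → x ∈ T := by
    intro x hx
    rw [hT, Finset.mem_filter]
    refine ⟨?_, hx⟩
    obtain ⟨_, _, _, _, h5, _⟩ := hx
    rw [norm_eq] at h5
    simp only [box, Finset.mem_image, Finset.mem_product, Finset.mem_Icc, Prod.exists]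
    refine ⟨x.re, x.im, ⟨⟨?_, ?_⟩, ⟨?_, ?_⟩⟩, rfl⟩ <;>
      nlinarith [sq_nonneg x.re, sq_nonneg x.im, sq_nonneg (x.re + 1), sq_nonneg (x.re - 1),
        sq_nonneg (x.im + 1), sq_nonneg (x.im - 1)]
  refine ⟨T, ?_, fun x h1 h2 h3 h4 h5 h6 => hmem x ⟨h1, h2, h3, h4, h5, h6⟩⟩
  rcases T.eq_empty_or_nonempty with hE | ⟨x0, hx0⟩
  · rw [hE]
    simp
  have hx0S : Sol x0 := (Finset.mem_filter.1 hx0).2
  obtain ⟨_, k2, k3, _, _, k6⟩ := hx0S
  have hch : ∀ x : GaussianInt, ∃ p : (GaussianInt × GaussianInt) × (GaussianInt × GaussianInt),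
      x ∈ T → Cls g x0 x p.1.1 p.1.2 p.2.1 p.2.2 := by
    intro x
    by_cases hx : x ∈ T
    · obtain ⟨_, _, _, _, _, l6⟩ := (Finset.mem_filter.1 hx).2
      obtain ⟨d1, d2, d3, d4, hc⟩ := exists_cls g a b x0 x ha hb k6 l6
      exact ⟨((d1, d2), (d3, d4)), fun _ => hc⟩
    · exact ⟨((0, 0), (0, 0)), fun h => absurd h hx⟩
  choose c hc using hch
  have hcD : ∀ x ∈ T, c x ∈ (D ×ˢ D) ×ˢ (D ×ˢ D) := by
    intro x hx
    obtain ⟨hp, _⟩ := hc x hx
    have hn2 : (((n ^ 2 : ℕ)) : GaussianInt) = g ^ 2 * (star g) ^ 2 := by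
      have h6 : ((n : ℤ) : GaussianInt) = g * star g := by
        rw [← hn]
        exact Zsqrtd.norm_eq_mul_conj g
      have h7 : (n : GaussianInt) = g * star g := by
        rw [← h6]
        simp
      push_cast
      rw [h7]
      ring
    have hdiv : ∀ d : GaussianInt, d ∣ (star g) ^ 2 → d ∈ D := by
      intro d hd
      apply hD2
      rw [hn2]
      exact hd.mul_left _
    rw [Finset.mem_product, Finset.mem_product, Finset.mem_product]
    refine ⟨⟨hdiv _ ?_, hdiv _ ?_⟩, ⟨hdiv _ ?_, hdiv _ ?_⟩⟩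
    · exact ⟨(c x).1.2 * (c x).2.1 * (c x).2.2, by rw [← hp]; ring⟩
    · exact ⟨(c x).1.1 * (c x).2.1 * (c x).2.2, by rw [← hp]; ring⟩
    · exact ⟨(c x).1.1 * (c x).1.2 * (c x).2.2, by rw [← hp]; ring⟩
    · exact ⟨(c x).1.1 * (c x).1.2 * (c x).2.1, by rw [← hp]; ring⟩
  obtain ⟨q, hq, hcard⟩ := pigeon' T ((D ×ˢ D) ×ˢ (D ×ˢ D)) c hcD ⟨c x0, hcD x0 hx0⟩
  set A : Finset GaussianInt := T.filter (fun x => c x = q) with hA
  have hAc : A.card * n ^ 2 ≤ 5 * (4 * X + n ^ 2) := by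
    rcases A.eq_empty_or_nonempty with hE | ⟨e, he⟩
    · rw [hE]
      simp
    · obtain ⟨heT, heq⟩ := Finset.mem_filter.1 he
      obtain ⟨m1, m2, m3, m4, m5, m6⟩ := (Finset.mem_filter.1 heT).2
      refine one_class e m1 n X hX hn0 m4 m5 A ?_
      intro x hx
      obtain ⟨hxT, hxq⟩ := Finset.mem_filter.1 hx
      obtain ⟨l1, l2, l3, l4, l5, l6⟩ := (Finset.mem_filter.1 hxT).2
      refine ⟨l5, ?_⟩
      have h1 := hc x hxT
      have h2 := hc e heT
      rw [hxq] at h1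
      rw [heq] at h2
      exact cls_im g hg n hn x0 x e _ _ _ _ k2 k3 l3 h1 h2
  have hDc : ((D ×ˢ D) ×ˢ (D ×ˢ D)).card ≤ (4 * (n ^ 2).divisors.card ^ 4) ^ 4 := by
    rw [Finset.card_product, Finset.card_product]
    calc D.card * D.card * (D.card * D.card) = D.card ^ 4 := by ring
      _ ≤ (4 * (n ^ 2).divisors.card ^ 4) ^ 4 := Nat.pow_le_pow_left hD1 4
  calc T.card * n ^ 2 ≤ (A.card * ((D ×ˢ D) ×ˢ (D ×ˢ D)).card) * n ^ 2 :=
        Nat.mul_le_mul_right _ hcard
    _ = ((D ×ˢ D) ×ˢ (D ×ˢ D)).card * (A.card * n ^ 2) := by ring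
    _ ≤ (4 * (n ^ 2).divisors.card ^ 4) ^ 4 * (5 * (4 * X + n ^ 2)) := Nat.mul_le_mul hDc hAc
    _ = 5 * (4 * (n ^ 2).divisors.card ^ 4) ^ 4 * (4 * X + n ^ 2) := by ring

end Pool.H68.MS
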