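import Pool.Agent.H68.MS.Div

/-!
# Simultaneous refinement of three Gaussian integers of norm `m ^ 2`
-/

set_option autoImplicit false

namespace Pool.H68.MS

/-- the ten patterns -/
def pat : Fin 10 → Fin 3 → ℕ :=
  ![![2, 2, 2], ![2, 2, 0], ![2, 0, 2], ![2, 0, 0], ![1, 2, 2], ![1, 2, 0], ![2, 1, 2], ![2, 1, 0],
    ![2, 2, 1], ![2, 0, 1]]

theorem pat_le : ∀ i j, pat i j ≤ 2 := by decide

theorem pat_ex : ∀ e : Fin 3 → Fin 3, (∀ i j : Fin 3, i ≠ j → ¬ (e i = 1 ∧ e j = 1)) →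
    ∃ i0 : Fin 10, (∀ j, pat i0 j = (e j).val) ∨ (∀ j, pat i0 j = 2 - (e j).val) := by
  decide

/-- no prime number divides two of the three -/
def Cop (β : Fin 3 → GaussianInt) : Prop :=
  ∀ p : ℕ, p.Prime → ∀ i j : Fin 3, i ≠ j → ¬ ((p : GaussianInt) ∣ β i ∧ (p : GaussianInt) ∣ β j)

theorem cast_norm (n : ℕ) : ((n : GaussianInt)).norm = (n : ℤ) ^ 2 := by
  have : ((n : GaussianInt)) = ((n : ℤ) : GaussianInt) := by simp
  rw [this, Zsqrtd.norm_intCast]
  ring

theorem norm_pow (x : GaussianInt) (k : ℕ) : (x ^ k).norm = x.norm ^ k := by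
  induction k with
  | zero => simp
  | succ k ih => rw [pow_succ, Zsqrtd.norm_mul, ih, pow_succ]

theorem star_dvd {a b : GaussianInt} (h : a ∣ star b) : star a ∣ b := by
  obtain ⟨c, hc⟩ := h
  refine ⟨star c, ?_⟩
  have := congrArg star hc
  rw [StarMul.star_mul, star_star] at this
  rw [this, mul_comm]

theorem star_dvd' {a b : GaussianInt} (h : a ∣ b) : star a ∣ star b := by
  obtain ⟨c, hc⟩ := h
  refine ⟨star c, ?_⟩
  rw [hc, StarMul.star_mul, mul_comm]

theorem nat_dvd_star {p : ℕ} {b : GaussianInt} (h : (p : GaussianInt) ∣ star b) :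
    (p : GaussianInt) ∣ b := by
  have := star_dvd h
  simpa using this

theorem mul_star (x : GaussianInt) : x * star x = ((x.norm : ℤ) : GaussianInt) :=
  (Zsqrtd.norm_eq_mul_conj x).symm

/-- the two prime factors of an odd prime are not associated -/
theorem not_dvd_star {p : ℕ} (hp : p.Prime) (h2 : p ≠ 2) {π : GaussianInt}
    (hpp : (p : GaussianInt) = π * star π) : ¬ star π ∣ π := by
  intro hd
  have hn : π.norm = p := by
    have := hpp.trans (mul_star π)
    have h3 : ((p : ℤ) : GaussianInt) = ((π.norm : ℤ) : GaussianInt) := by simpa using this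
    have h4 : (p : ℤ) = π.norm := by exact_mod_cast h3
    exact h4.symm
  have h1 : star π ∣ π + star π := dvd_add hd dvd_rfl
  obtain ⟨c, hc⟩ := h1
  have h3 := congrArg Zsqrtd.norm hc
  rw [Zsqrtd.norm_mul, Zsqrtd.norm_conj, hn] at h3
  have h4 : (π + star π).norm = 4 * π.re ^ 2 := by
    rw [Zsqrtd.norm_def]
    simp
    ring
  rw [h4] at h3
  have hpi : Prime (p : ℤ) := Nat.prime_iff_prime_int.1 hp
  have h5 : (p : ℤ) ∣ π.re := by
    have h6 : (p : ℤ) ∣ 4 * π.re ^ 2 := Dvd.intro _ h3.symm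
    rcases hpi.dvd_or_dvd h6 with h7 | h7
    · exfalso
      have h8 : p ∣ 4 := by exact_mod_cast h7
      have h9 : p ∣ 2 ^ 2 := h8
      exact h2 ((Nat.prime_dvd_prime_iff_eq hp Nat.prime_two).1 (hp.dvd_of_dvd_pow h9))
    · exact hpi.dvd_of_dvd_pow h7
  rw [Zsqrtd.norm_def] at hn
  have h6 : (p : ℤ) ∣ π.im := by
    have h7 : π.im ^ 2 = p - π.re * π.re := by linarith [sq π.im]
    exact hpi.dvd_of_dvd_pow (h7 ▸ (dvd_sub dvd_rfl (h5.mul_right _)))
  obtain ⟨a, ha⟩ := h5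
  obtain ⟨b, hb⟩ := h6
  rw [ha, hb] at hn
  have h7 : (p : ℤ) * (p * (a ^ 2 + b ^ 2)) = p * 1 := by linarith
  have h8 := mul_left_cancel₀ (by exact_mod_cast hp.ne_zero) h7
  have h9 : (p : ℤ) ∣ 1 := Dvd.intro _ h8
  have h10 : p ∣ 1 := by exact_mod_cast h9
  exact hp.one_lt.ne' (Nat.dvd_one.1 h10)

/-- the local factor of one of the numbers -/
theorem local_one {p : ℕ} (hp : p.Prime) (h2 : p ≠ 2) {π : GaussianInt} (hπ : Prime π)
    (hpp : (p : GaussianInt) = π * star π) {β : GaussianInt} {n : ℕ}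
    (hβ : β.norm = ((p * n : ℕ) : ℤ) ^ 2) : ∃ e : Fin 3, π ^ (e : ℕ) * (star π) ^ (2 - (e : ℕ)) ∣ β ∧
      (e = 1 → (p : GaussianInt) ∣ β) := by
  have hπ' := star_prime hπ
  have hnd := not_dvd_star hp h2 hpp
  have h1 : β * star β = (π * star π) ^ 2 * ((n : GaussianInt)) ^ 2 := by
    rw [mul_star, hβ, ← hpp]
    push_cast
    ring
  by_cases ha : π ∣ β
  · by_cases hb : star π ∣ β
    · refine ⟨1, ?_, fun _ => ?_⟩
      all_goals
        obtain ⟨c, hc⟩ := ha
        rw [hc] at hb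
        rcases hπ'.dvd_or_dvd hb with h | h
        · exact absurd h hnd
        · obtain ⟨d, hd⟩ := h
          refine ⟨d, ?_⟩
          rw [hc, hd]
          try rw [hpp]
          simp [mul_assoc]
    · refine ⟨2, ?_, fun h => absurd h (by decide)⟩
      have h3 : (star π) ^ 2 ∣ β * star β := ⟨π ^ 2 * (n : GaussianInt) ^ 2, by rw [h1]; ring⟩
      have h4 := hπ'.pow_dvd_of_dvd_mul_left 2 hb h3
      have h5 := star_dvd h4
      simpa using h5
  · refine ⟨0, ?_, fun h => absurd h (by decide)⟩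
    have h3 : π ^ 2 ∣ β * star β := ⟨(star π) ^ 2 * (n : GaussianInt) ^ 2, by rw [h1]; ring⟩
    have h4 := hπ.pow_dvd_of_dvd_mul_left 2 ha h3
    have h5 := star_dvd h4
    simpa using h5

theorem two_dvd {β : GaussianInt} {n : ℕ} (h : β.norm = ((2 * n : ℕ) : ℤ) ^ 2) :
    ((2 : ℕ) : GaussianInt) ∣ β := by
  obtain ⟨x, y⟩ := β
  rw [Zsqrtd.norm_def] at h
  simp only at h
  push_cast at h
  have h1 : x ^ 2 + y ^ 2 = 4 * (n : ℤ) ^ 2 := by linear_combination h
  have h2 : (∃ a, x = 2 * a) ∧ ∃ b, y = 2 * b := by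
    rcases Int.even_or_odd' x with ⟨a, ha | ha⟩ <;> rcases Int.even_or_odd' y with ⟨b, hb | hb⟩
    · exact ⟨⟨a, ha⟩, b, hb⟩
    · exfalso
      rw [ha, hb] at h1
      have : 4 * (a ^ 2 + b ^ 2 + b - (n : ℤ) ^ 2) = -1 := by linear_combination h1
      omega
    · exfalso
      rw [ha, hb] at h1
      have : 4 * (a ^ 2 + b ^ 2 + a - (n : ℤ) ^ 2) = -1 := by linear_combination h1
      omega
    · exfalso
      rw [ha, hb] at h1
      have : 4 * (a ^ 2 + b ^ 2 + a + b - (n : ℤ) ^ 2) = -2 := by linear_combination h1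
      omega
  obtain ⟨⟨a, rfl⟩, b, rfl⟩ := h2
  refine ⟨⟨a, b⟩, ?_⟩
  ext <;> simp

theorem norm_eq_of {p : ℕ} {π : GaussianInt} (hpp : (p : GaussianInt) = π * star π) :
    π.norm = p := by
  have := hpp.trans (mul_star π)
  have h3 : ((p : ℤ) : GaussianInt) = ((π.norm : ℤ) : GaussianInt) := by simpa using this
  have h4 : (p : ℤ) = π.norm := by exact_mod_cast h3
  exact h4.symm

theorem norm_pair (x : GaussianInt) {a : ℕ} (ha : a ≤ 2) :
    (x ^ a * (star x) ^ (2 - a)).norm = x.norm ^ 2 := by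
  rw [Zsqrtd.norm_mul, norm_pow, norm_pow, Zsqrtd.norm_conj, ← pow_add]
  congr 1
  omega

theorem Cop.of_dvd {β β' : Fin 3 → GaussianInt} (h : Cop β) (hd : ∀ j, β' j ∣ β j) : Cop β' :=
  fun p hp i j hij h1 => h p hp i j hij ⟨h1.1.trans (hd i), h1.2.trans (hd j)⟩

theorem step {m : ℕ} (hm : 1 < m) {β : Fin 3 → GaussianInt}
    (hN : ∀ j, (β j).norm = (m : ℤ) ^ 2) (hC : Cop β) : ∃ (p n : ℕ) (ϖ : GaussianInt) (i0 : Fin 10),
      1 < p ∧ 0 < n ∧ m = p * n ∧ ϖ.norm = p ∧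
      ∀ j, ϖ ^ (pat i0 j) * (star ϖ) ^ (2 - pat i0 j) ∣ β j := by
  set p := m.minFac with hp
  have hpp : p.Prime := Nat.minFac_prime hm.ne'
  obtain ⟨n, hn⟩ := Nat.minFac_dvd m
  rw [← hp] at hn
  have hn0 : 0 < n := by
    rcases Nat.eq_zero_or_pos n with h | h
    · rw [h] at hn
      omega
    · exact h
  have hN' : ∀ j, (β j).norm = ((p * n : ℕ) : ℤ) ^ 2 := by
    intro j
    rw [hN j, hn]
  have h01 : (0 : Fin 3) ≠ 1 := by decide
  have h2 : p ≠ 2 := by
    intro h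
    refine hC 2 Nat.prime_two 0 1 h01 ⟨?_, ?_⟩
    all_goals
      apply two_dvd (n := n)
      rw [hN', h]
  rcases split_prime hpp with hin | ⟨π, hπ, hπp⟩
  · exfalso
    have hd : ∀ j, (p : GaussianInt) ∣ β j := by
      intro j
      have h3 : (p : GaussianInt) ∣ β j * star (β j) := by
        rw [mul_star, hN']
        refine ⟨(p : GaussianInt) * (n : GaussianInt) ^ 2, ?_⟩
        push_cast
        ring
      rcases hin.dvd_or_dvd h3 with h4 | h4
      · exact h4
      · exact nat_dvd_star h4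
    exact hC p hpp 0 1 h01 ⟨hd 0, hd 1⟩
  · have hloc := fun j => local_one hpp h2 hπ hπp (hN' j)
    choose e he1 he2 using hloc
    obtain ⟨i0, hi0⟩ := pat_ex e (fun i j hij h => hC p hpp i j hij ⟨he2 i h.1, he2 j h.2⟩)
    rcases hi0 with h | h
    · refine ⟨p, n, π, i0, hpp.one_lt, hn0, hn, norm_eq_of hπp, fun j => ?_⟩
      rw [h j]
      exact he1 j
    · refine ⟨p, n, star π, i0, hpp.one_lt, hn0, hn, ?_, fun j => ?_⟩
      · rw [Zsqrtd.norm_conj]
        exact norm_eq_of hπp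
      · rw [h j, star_star]
        have h3 : (e j : ℕ) ≤ 2 := by have := (e j).2; omega
        have h4 : 2 - (2 - (e j : ℕ)) = e j := by omega
        rw [h4, mul_comm]
        exact he1 j

/-- the refinement -/
theorem refine3 (m : ℕ) : 0 < m → ∀ β : Fin 3 → GaussianInt,
    (∀ j, (β j).norm = (m : ℤ) ^ 2) → Cop β →
    ∃ (γ : Fin 10 → GaussianInt) (u : Fin 3 → GaussianInt), (∀ j, (u j).norm = 1) ∧
      (∀ j, β j = u j * ∏ i, ((γ i) ^ (pat i j) * (star (γ i)) ^ (2 - pat i j))) ∧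
      (m : ℤ) = ∏ i, (γ i).norm := by
  induction m using Nat.strong_induction_on with
  | _ m ih =>
    intro hm β hN hC
    rcases Nat.lt_or_ge 1 m with h1 | h1
    · obtain ⟨p, n, ϖ, i0, hp1, hn0, hmn, hϖ, hdv⟩ := step h1 hN hC
      choose β' hβ' using hdv
      have hN' : ∀ j, (β' j).norm = (n : ℤ) ^ 2 := by
        intro j
        have h3 := hN j
        rw [hβ' j, Zsqrtd.norm_mul, norm_pair _ (pat_le i0 j), hϖ, hmn] at h3
        push_cast at h3
        have h4 : (p : ℤ) ^ 2 ≠ 0 := by positivity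
        apply mul_left_cancel₀ h4
        rw [h3]
        ring
      have hnm : n < m := by
        rw [hmn]
        nlinarith
      obtain ⟨γ, u, hu, hγ, hmm⟩ := ih n hnm hn0 β' hN'
        (hC.of_dvd fun j => ⟨_, by rw [mul_comm]; exact hβ' j⟩)
      refine ⟨fun i => γ i * (if i = i0 then ϖ else 1), u, hu, fun j => ?_, ?_⟩
      · have h5 : ∏ i, ((γ i * (if i = i0 then ϖ else 1)) ^ (pat i j) *
            (star (γ i * (if i = i0 then ϖ else 1))) ^ (2 - pat i j)) =
            (∏ i, ((γ i) ^ (pat i j) * (star (γ i)) ^ (2 - pat i j))) *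
            ∏ i, ((if i = i0 then ϖ else 1) ^ (pat i j) *
              (star (if i = i0 then ϖ else 1)) ^ (2 - pat i j)) := by
          rw [← Finset.prod_mul_distrib]
          refine Finset.prod_congr rfl fun i _ => ?_
          rw [StarMul.star_mul, mul_pow, mul_pow]
          ring
        have h6 : ∏ i, ((if i = i0 then ϖ else 1) ^ (pat i j) *
              (star (if i = i0 then ϖ else 1)) ^ (2 - pat i j)) =
              ϖ ^ (pat i0 j) * (star ϖ) ^ (2 - pat i0 j) := by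
          rw [Finset.prod_eq_single i0]
          · rw [if_pos rfl]
          · intro i _ hi
            rw [if_neg hi]
            simp
          · intro h
            exact absurd (Finset.mem_univ _) h
        rw [h5, h6, hβ' j, hγ j]
        ring
      · have h5 : ∏ i, (γ i * (if i = i0 then ϖ else 1)).norm =
            (∏ i, (γ i).norm) * ∏ i, (if i = i0 then ϖ else (1 : GaussianInt)).norm := by
          rw [← Finset.prod_mul_distrib]
          exact Finset.prod_congr rfl fun i _ => Zsqrtd.norm_mul _ _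
        have h6 : ∏ i, (if i = i0 then ϖ else (1 : GaussianInt)).norm = p := by
          rw [Finset.prod_eq_single i0]
          · rw [if_pos rfl, hϖ]
          · intro i _ hi
            rw [if_neg hi, Zsqrtd.norm_one]
          · intro h
            exact absurd (Finset.mem_univ _) h
        rw [h5, h6, ← hmm, hmn]
        push_cast
        ring
    · obtain rfl : m = 1 := by omega
      refine ⟨fun _ => 1, β, fun j => ?_, fun j => ?_, ?_⟩
      · rw [hN j]
        norm_num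
      · simp
      · simp

/-- some cell has size at least `m ^ (1 / 10)` -/
theorem big_cell {m : ℕ} (hm : 0 < m) {β : Fin 3 → GaussianInt}
    (hN : ∀ j, (β j).norm = (m : ℤ) ^ 2) (hC : Cop β) :
    ∃ (i : Fin 10) (γ : GaussianInt) (δ : Fin 3 → GaussianInt) (Q : ℕ), 0 < Q ∧
      (m : ℤ) = γ.norm * Q ∧ (∀ j, (δ j).norm = (Q : ℤ) ^ 2) ∧ Q ^ 10 ≤ m ^ 9 ∧
      ∀ j, β j = γ ^ (pat i j) * (star γ) ^ (2 - pat i j) * δ j := by
  classical
  obtain ⟨γ, u, hu, hγ, hmm⟩ := refine3 m hm β hN hC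
  have hnn : ∀ i, 0 ≤ (γ i).norm := fun i => Zsqrtd.norm_nonneg (by norm_num) _
  have hm0 : (m : ℤ) ≠ 0 := by exact_mod_cast hm.ne'
  have hpos : ∀ i, 0 < (γ i).norm := by
    intro i
    refine lt_of_le_of_ne (hnn i) fun h => hm0 ?_
    rw [hmm]
    exact Finset.prod_eq_zero (Finset.mem_univ i) h.symm
  have hex : ∃ i, (m : ℤ) ≤ (γ i).norm ^ 10 := by
    by_contra hcon
    push Not at hcon
    have h1 : ∏ i : Fin 10, (γ i).norm ^ 10 < ∏ _i : Fin 10, (m : ℤ) :=
      Finset.prod_lt_prod_of_nonempty (fun i _ => pow_pos (hpos i) 10) (fun i _ => hcon i)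
        Finset.univ_nonempty
    rw [Finset.prod_pow, ← hmm, Finset.prod_const, Finset.card_univ, Fintype.card_fin] at h1
    exact lt_irrefl _ h1
  obtain ⟨i, hi⟩ := hex
  set Qz : ℤ := ∏ k ∈ Finset.univ.erase i, (γ k).norm with hQz
  have hQ0 : 0 < Qz := Finset.prod_pos fun k _ => hpos k
  obtain ⟨Q, hQ⟩ : ∃ Q : ℕ, Qz = Q := ⟨Qz.toNat, (Int.toNat_of_nonneg hQ0.le).symm⟩
  have hmQ : (m : ℤ) = (γ i).norm * Q := by
    rw [← hQ, hQz, hmm]
    exact (Finset.mul_prod_erase Finset.univ (fun k => (γ k).norm) (Finset.mem_univ i)).symm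
  have hβ : ∀ j, β j = (γ i) ^ (pat i j) * (star (γ i)) ^ (2 - pat i j) *
      (u j * ∏ k ∈ Finset.univ.erase i, ((γ k) ^ (pat k j) * (star (γ k)) ^ (2 - pat k j))) := by
    intro j
    rw [hγ j, ← Finset.mul_prod_erase Finset.univ
      (fun k => (γ k) ^ (pat k j) * (star (γ k)) ^ (2 - pat k j)) (Finset.mem_univ i)]
    ring
  refine ⟨i, γ i, _, Q, by exact_mod_cast (hQ ▸ hQ0), hmQ, fun j => ?_, ?_, hβ⟩
  · have h3 := hN j
    rw [hβ j, Zsqrtd.norm_mul, norm_pair _ (pat_le i j), hmQ] at h3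
    have h4 : (γ i).norm ^ 2 ≠ 0 := (pow_pos (hpos i) 2).ne'
    apply mul_left_cancel₀ h4
    rw [h3]
    ring
  · have h5 : (Q : ℤ) ^ 10 ≤ (m : ℤ) ^ 9 := by
      have h6 : (m : ℤ) ^ 10 = (γ i).norm ^ 10 * (Q : ℤ) ^ 10 := by
        rw [← mul_pow, ← hmQ]
      have h7 : (m : ℤ) * (Q : ℤ) ^ 10 ≤ (m : ℤ) * (m : ℤ) ^ 9 := by
        calc (m : ℤ) * (Q : ℤ) ^ 10 ≤ (γ i).norm ^ 10 * (Q : ℤ) ^ 10 :=
              mul_le_mul_of_nonneg_right hi (by positivity)
          _ = (m : ℤ) * (m : ℤ) ^ 9 := by rw [← h6]; ring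
      exact le_of_mul_le_mul_left h7 (by exact_mod_cast hm)
    exact_mod_cast h5

end Pool.H68.MS
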