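import Pool.Agent.H68.MS.Cong

/-!
# The choice of the cell, admissible cofactors
-/

set_option autoImplicit false

namespace Pool.H68.MS

/-- one cell and its cofactors -/
theorem cell_split {m : ℕ} (hm : 0 < m) {β : Fin 3 → GaussianInt}
    (hN : ∀ j, (β j).norm = (m : ℤ) ^ 2)
    {γ : Fin 10 → GaussianInt} {u : Fin 3 → GaussianInt}
    (hγ : ∀ j, β j = u j * ∏ i, ((γ i) ^ (pat i j) * (star (γ i)) ^ (2 - pat i j)))
    (hmm : (m : ℤ) = ∏ i, (γ i).norm) (i : Fin 10) :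
    ∃ (δ : Fin 3 → GaussianInt) (Q : ℕ), 0 < Q ∧
      (m : ℤ) = (γ i).norm * Q ∧ (∀ j, (δ j).norm = (Q : ℤ) ^ 2) ∧
      ∀ j, β j = bet i δ (γ i) j := by
  classical
  have hnn : ∀ i, 0 ≤ (γ i).norm := fun i => Zsqrtd.norm_nonneg (by norm_num) _
  have hm0 : (m : ℤ) ≠ 0 := by exact_mod_cast hm.ne'
  have hpos : ∀ i, 0 < (γ i).norm := by
    intro i
    refine lt_of_le_of_ne (hnn i) fun h => hm0 ?_
    rw [hmm]
    exact Finset.prod_eq_zero (Finset.mem_univ i) h.symm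
  set Qz : ℤ := ∏ k ∈ Finset.univ.erase i, (γ k).norm with hQz
  have hQ0 : 0 < Qz := Finset.prod_pos fun k _ => hpos k
  obtain ⟨Q, hQ⟩ : ∃ Q : ℕ, Qz = Q := ⟨Qz.toNat, (Int.toNat_of_nonneg hQ0.le).symm⟩
  have hmQ : (m : ℤ) = (γ i).norm * Q := by
    rw [← hQ, hQz, hmm]
    exact (Finset.mul_prod_erase Finset.univ (fun k => (γ k).norm) (Finset.mem_univ i)).symm
  have hβ : ∀ j, β j = (γ i) ^ (pat i j) * (star (γ i)) ^ (2 - pat i j) *
      (u j * ∏ k ∈ Finset.univ.erase i, ((γ k) ^ (pat k j) * (star (γ k)) ^ (2 - pat k j))) := by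
    intro j
    rw [hγ j, ← Finset.mul_prod_erase Finset.univ
      (fun k => (γ k) ^ (pat k j) * (star (γ k)) ^ (2 - pat k j)) (Finset.mem_univ i)]
    ring
  refine ⟨_, Q, by exact_mod_cast (hQ ▸ hQ0), hmQ, fun j => ?_, hβ⟩
  have h3 := hN j
  rw [hβ j, Zsqrtd.norm_mul, norm_pair _ (pat_le i j), hmQ] at h3
  have h4 : (γ i).norm ^ 2 ≠ 0 := (pow_pos (hpos i) 2).ne'
  apply mul_left_cancel₀ h4
  rw [h3]
  ring

/-- a B-cell whose square times one of its common cells is large -/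
theorem select {m : ℕ} {n : Fin 10 → ℕ} (hn : ∀ i, 0 < n i) (hm : m = ∏ i, n i) :
    ∃ s : Fin 6, m ≤ (n (Bc s) ^ 2 * max (n (A1 s)) (n (A2 s))) ^ 4 := by
  by_contra hcon
  push Not at hcon
  have h1 : ∀ s, n (Bc s) ^ 8 * (n (A1 s) * n (A2 s)) ^ 2 < m := by
    intro s
    refine lt_of_le_of_lt ?_ (hcon s)
    have h2 : n (A1 s) * n (A2 s) ≤ max (n (A1 s)) (n (A2 s)) ^ 2 := by
      rw [pow_two]
      exact Nat.mul_le_mul (le_max_left _ _) (le_max_right _ _)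
    calc n (Bc s) ^ 8 * (n (A1 s) * n (A2 s)) ^ 2 ≤
        n (Bc s) ^ 8 * (max (n (A1 s)) (n (A2 s)) ^ 2) ^ 2 :=
          Nat.mul_le_mul_left _ (Nat.pow_le_pow_left h2 2)
      _ = (n (Bc s) ^ 2 * max (n (A1 s)) (n (A2 s))) ^ 4 := by ring
  have h3 : ∏ s : Fin 6, (n (Bc s) ^ 8 * (n (A1 s) * n (A2 s)) ^ 2) < ∏ _s : Fin 6, m :=
    Finset.prod_lt_prod_of_nonempty
      (fun s _ => Nat.mul_pos (pow_pos (hn _) 8) (pow_pos (Nat.mul_pos (hn _) (hn _)) 2))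
      (fun s _ => h1 s) Finset.univ_nonempty
  rw [Finset.prod_const, Finset.card_univ, Fintype.card_fin] at h3
  have h4 : ∏ s : Fin 6, (n (Bc s) ^ 8 * (n (A1 s) * n (A2 s)) ^ 2) =
      (n 4 * n 5 * n 6 * n 7 * n 8 * n 9) ^ 2 * m ^ 6 := by
    rw [hm]
    simp [Fin.prod_univ_succ, Bc, A1, A2]
    ring
  rw [h4] at h3
  have h5 : 1 ≤ (n 4 * n 5 * n 6 * n 7 * n 8 * n 9) ^ 2 := by
    have := hn 4
    have := hn 5
    have := hn 6
    have := hn 7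
    have := hn 8
    have := hn 9
    have : 0 < n 4 * n 5 * n 6 * n 7 * n 8 * n 9 := by positivity
    exact Nat.one_le_pow _ _ this
  have h6 : 1 * m ^ 6 ≤ (n 4 * n 5 * n 6 * n 7 * n 8 * n 9) ^ 2 * m ^ 6 :=
    Nat.mul_le_mul_right _ h5
  omega

/-- the two sizes -/
theorem sizes {m G K k W F R M : ℕ} (hG : 0 < G) (hK : 0 < K) (hF : 0 < F) (hkK : k ≤ K)
    (hWF : W ≤ F) (hm : m = G * K * k * (W * F)) (hsel : m ≤ (G ^ 2 * K) ^ 4) (hG2 : G ^ 2 ≤ m)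
    (hmM : m ≤ M) (hR : M ^ 3 ≤ R ^ 4) :
    F * W * k ≤ R * G ∧ G * W * k ≤ R := by
  have hm3 : m ^ 3 ≤ R ^ 4 := (Nat.pow_le_pow_left hmM 3).trans hR
  constructor
  · have h1 : (F * W * k) ^ 4 * (G * K) ^ 4 ≤ (R * G) ^ 4 * (G * K) ^ 4 := by
      calc (F * W * k) ^ 4 * (G * K) ^ 4 = m ^ 3 * m := by rw [hm]; ring
        _ ≤ R ^ 4 * (G ^ 2 * K) ^ 4 := Nat.mul_le_mul hm3 hsel
        _ = (R * G) ^ 4 * (G * K) ^ 4 := by ring
    have h2 : (F * W * k) ^ 4 ≤ (R * G) ^ 4 := Nat.le_of_mul_le_mul_right h1 (by positivity)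
    exact (Nat.pow_le_pow_iff_left (by norm_num)).1 h2
  · have h0 : m ≤ G * (F * K) ^ 2 := by
      calc m = G * (K * k * (W * F)) := by rw [hm]; ring
        _ ≤ G * (K * K * (F * F)) := by gcongr
        _ = G * (F * K) ^ 2 := by ring
    have hm0 : m ≤ (F * K) ^ 4 := by
      have h3 : G ^ 2 * m ≤ G ^ 2 * (F * K) ^ 4 := by
        calc G ^ 2 * m ≤ m * m := Nat.mul_le_mul_right _ hG2
          _ ≤ (G * (F * K) ^ 2) * (G * (F * K) ^ 2) := Nat.mul_le_mul h0 h0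
          _ = G ^ 2 * (F * K) ^ 4 := by ring
      exact Nat.le_of_mul_le_mul_left h3 (by positivity)
    have h1 : (G * W * k) ^ 4 * (F * K) ^ 4 ≤ R ^ 4 * (F * K) ^ 4 := by
      calc (G * W * k) ^ 4 * (F * K) ^ 4 = m ^ 3 * m := by rw [hm]; ring
        _ ≤ R ^ 4 * (F * K) ^ 4 := Nat.mul_le_mul hm3 hm0
    have h2 : (G * W * k) ^ 4 ≤ R ^ 4 := Nat.le_of_mul_le_mul_right h1 (by positivity)
    exact (Nat.pow_le_pow_iff_left (by norm_num)).1 h2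

/-- the coefficients of the congruences -/
noncomputable def AB (y : GaussianInt) : Finset (GaussianInt × GaussianInt) := by
  classical
  exact {(y ^ 8, (star y) ^ 8), (y ^ 2, (star y) ^ 2), (y ^ 2, -(star y) ^ 2)}

theorem AB_card (y : GaussianInt) : (AB y).card ≤ 4 := by
  unfold AB
  exact Finset.card_le_three.trans (by norm_num)

/-- admissible cofactors -/
def Adm (M R Q : ℕ) : Prop := Q ≤ R ∨
  ∃ (g x y : GaussianInt) (n1 n2 n3 k : ℕ) (p : GaussianInt × GaussianInt), p ∈ AB y ∧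
    g.norm = n1 ∧ y.norm = n2 ∧ x.norm = n3 ∧ 0 < n1 ∧ 0 < n2 ∧ 0 < n3 ∧ 0 < k ∧
    IsCoprime g (star g) ∧ IsCoprime p.1 (star g) ∧ IsCoprime p.2 (star g) ∧
    IsCoprime x.re x.im ∧ IsCoprime x (star g) ∧ IsCoprime (star x) (star g) ∧
    (star g) ^ 2 ∣ p.1 * x ^ 4 - p.2 * (star x) ^ 4 ∧
    n3 * n2 * k ≤ R * n1 ∧ n1 * n2 * k ≤ R ∧ n1 * n2 * n3 * k ≤ M ∧ Q = n1 * n2 * n3 * k

theorem adm_of {m M R : ℕ} {g w f : GaussianInt} {G K k W F Q : ℕ} {ε : ℤ}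
    (hε : ε = 1 ∨ ε = -1) (hg : IsCoprime g (star g)) (hw : Cpl g w) (hf : Cpl g f)
    (hd : (star g) ^ 2 ∣ w ^ 4 * f ^ 2 - (ε : GaussianInt) * (star w ^ 4 * star f ^ 2))
    (hgG : g.norm = G) (hwW : w.norm = W) (hfF : f.norm = F) (hG : 0 < G) (hK : 0 < K)
    (hk : 0 < k) (hW : 0 < W) (hF : 0 < F) (hkK : k ≤ K) (hm : m = G * K * k * (W * F))
    (hsel : m ≤ (G ^ 2 * K) ^ 4) (hG2 : G ^ 2 ≤ m) (hmM : m ≤ M) (hR : M ^ 3 ≤ R ^ 4)
    (hQ : m = K * Q) : Adm M R Q := by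
  classical
  right
  have hQ' : Q = G * k * (W * F) := by
    apply Nat.eq_of_mul_eq_mul_left hK
    rw [← hQ, hm]
    ring
  have hQM : Q ≤ M := by
    refine le_trans ?_ hmM
    rw [hQ]
    exact Nat.le_mul_of_pos_left _ hK
  rcases le_total W F with hWF | hFW
  · obtain ⟨s1, s2⟩ := sizes hG hK hF hkK hWF hm hsel hG2 hmM hR
    refine ⟨g, f, w, G, W, F, k, (w ^ 8, (star w) ^ 8), ?_, hgG, hwW, hfF, hG, hW, hF, hk, hg,
      hw.2.1.pow_left, hw.2.2.pow_left, hf.1, hf.2.1, hf.2.2, ?_, s1, s2, ?_, ?_⟩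
    · unfold AB
      simp
    · obtain ⟨c, hc⟩ := hd
      refine ⟨c * (w ^ 4 * f ^ 2 + (ε : GaussianInt) * (star w ^ 4 * star f ^ 2)), ?_⟩
      have h1 : (ε : GaussianInt) * (ε : GaussianInt) = 1 := by
        rcases hε with rfl | rfl <;> simp
      simp only
      linear_combination (w ^ 4 * f ^ 2 + (ε : GaussianInt) * (star w ^ 4 * star f ^ 2)) * hc +
        (star w ^ 4 * star f ^ 2) ^ 2 * h1
    · rw [hQ'] at hQM
      calc G * W * F * k = G * k * (W * F) := by ring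
        _ ≤ M := hQM
    · rw [hQ']
      ring
  · have hm' : m = G * K * k * (F * W) := by rw [hm]; ring
    obtain ⟨s1, s2⟩ := sizes hG hK hW hkK hFW hm' hsel hG2 hmM hR
    refine ⟨g, w, f, G, F, W, k, (f ^ 2, (ε : GaussianInt) * (star f) ^ 2), ?_, hgG, hfF, hwW, hG,
      hF, hW, hk, hg, hf.2.1.pow_left, ?_, hw.1, hw.2.1, hw.2.2, ?_, s1, s2, ?_, ?_⟩
    · unfold AB
      rcases hε with rfl | rfl <;> simp
    · rcases hε with rfl | rfl
      · simp only [Int.cast_one, one_mul]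
        exact hf.2.2.pow_left
      · simp only [Int.cast_neg, Int.cast_one, neg_mul, one_mul]
        exact (hf.2.2.pow_left).neg_left
    · obtain ⟨c, hc⟩ := hd
      refine ⟨c, ?_⟩
      simp only
      linear_combination hc
    · rw [hQ'] at hQM
      calc G * F * W * k = G * k * (W * F) := by ring
        _ ≤ M := hQM
    · rw [hQ']
      ring

end Pool.H68.MS
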